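import Pool.Agent.TH658.Dg.Flow

/-!
# Flows on a graph as a locally consistent system

Edges and nodes of a directed graph are the classes. Every class carries a function on the edges
which it sees; the function at a node is balanced at this node. The values at the different classes
have to agree up to a twist.
-/

set_option autoImplicit false
set_option linter.unusedSectionVars false

namespace Pool.Agent.K4H90.AllF

open Finset Pool.Agent.TH658.Dg

section bdl

variable {A Q E : Type} [CommRing A] [DecidableEq Q] [Fintype E] (src tgt : E → Q)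

theorem bd_add (M N : E → A) (v : Q) :
    bd src tgt (M + N) v = bd src tgt M v + bd src tgt N v := by
  unfold bd
  rw [← Finset.sum_add_distrib]
  refine Finset.sum_congr rfl fun e _ => ?_
  simp only [Pi.add_apply]
  split_ifs <;> ring

theorem bd_neg (M : E → A) (v : Q) : bd src tgt (-M) v = -bd src tgt M v := by
  unfold bd
  rw [← Finset.sum_neg_distrib]
  refine Finset.sum_congr rfl fun e _ => ?_
  simp only [Pi.neg_apply]
  split_ifs <;> ring

theorem bd_sub (M N : E → A) (v : Q) :
    bd src tgt (M - N) v = bd src tgt M v - bd src tgt N v := by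
  rw [sub_eq_add_neg, bd_add, bd_neg, sub_eq_add_neg]

theorem bd_zero (v : Q) : bd src tgt (0 : E → A) v = 0 := by
  unfold bd
  simp

theorem bd_mul (M : E → A) (d : A) (v : Q) :
    bd src tgt (fun e => d * M e) v = d * bd src tgt M v := by
  unfold bd
  rw [Finset.mul_sum]
  refine Finset.sum_congr rfl fun e _ => ?_
  split_ifs <;> ring

theorem bd_sum {ι : Type} (s : Finset ι) (M : ι → E → A) (v : Q) :
    bd src tgt (∑ i ∈ s, M i) v = ∑ i ∈ s, bd src tgt (M i) v := by
  classical
  induction s using Finset.induction_on with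
  | empty => simp [bd_zero]
  | insert a s ha ih => rw [Finset.sum_insert ha, Finset.sum_insert ha, bd_add, ih]

theorem bd_congr {M N : E → A} {v : Q} (h : ∀ e, tgt e = v ∨ src e = v → M e = N e) :
    bd src tgt M v = bd src tgt N v := by
  unfold bd
  refine Finset.sum_congr rfl fun e _ => ?_
  congr 1
  · by_cases h1 : tgt e = v
    · rw [if_pos h1, if_pos h1, h e (Or.inl h1)]
    · rw [if_neg h1, if_neg h1]
  · by_cases h1 : src e = v
    · rw [if_pos h1, if_pos h1, h e (Or.inr h1)]
    · rw [if_neg h1, if_neg h1]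

theorem bd_single [DecidableEq E] (e : E) (v : Q) :
    bd src tgt (Pi.single e (1 : A)) v =
      (if v = tgt e then 1 else 0) - (if v = src e then 1 else 0) := by
  unfold bd
  rw [Finset.sum_eq_single e]
  · simp only [Pi.single_eq_same, eq_comm]
  · intro e' _ h
    rw [Pi.single_eq_of_ne h]
    simp
  · intro h
    exact absurd (Finset.mem_univ e) h

end bdl

/-- The edges which a class sees. -/
def See {Q E : Type} (src tgt : E → Q) : E ⊕ Q → E → Prop
  | .inl e', e => e = e'
  | .inr v, e => tgt e = v ∨ src e = v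

/-- The twist of a class. -/
def tw {A Q E : Type} [Zero A] (τ : Q → E → A) : E ⊕ Q → E → A
  | .inl _, _ => 0
  | .inr v, e => τ v e

section

variable {A Q E : Type} [CommRing A] [DecidableEq Q] [Fintype E] (src tgt : E → Q)

/-- The functions at a class. -/
def GG (c : E ⊕ Q) : AddSubgroup (E → A) where
  carrier := {g | (∀ e, ¬ See src tgt c e → g e = 0) ∧ ∀ v, c = .inr v → bd src tgt g v = 0}
  add_mem' := by
    rintro g g' ⟨h1, h2⟩ ⟨h3, h4⟩
    refine ⟨fun e he => ?_, fun v hv => ?_⟩
    · rw [Pi.add_apply, h1 e he, h3 e he, add_zero]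
    · rw [bd_add, h2 v hv, h4 v hv, add_zero]
  zero_mem' := ⟨fun _ _ => rfl, fun v _ => bd_zero src tgt v⟩
  neg_mem' := by
    rintro g ⟨h1, h2⟩
    refine ⟨fun e he => ?_, fun v hv => ?_⟩
    · rw [Pi.neg_apply, h1 e he, neg_zero]
    · rw [bd_neg, h2 v hv, neg_zero]

/-- The families of functions. -/
def XX : AddSubgroup (E ⊕ Q → E → A) where
  carrier := {M | ∀ c, M c ∈ GG src tgt c}
  add_mem' h1 h2 c := (GG src tgt c).add_mem (h1 c) (h2 c)
  zero_mem' c := (GG src tgt c).zero_mem
  neg_mem' h c := (GG src tgt c).neg_mem (h c)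

/-- The families which vanish at the classes of `W`. -/
def NN (W : Finset (E ⊕ Q)) : AddSubgroup (XX (A := A) src tgt) where
  carrier := {M | ∀ c ∈ W, M.1 c = 0}
  add_mem' := by
    intro M N h1 h2 c hc
    show M.1 c + N.1 c = 0
    rw [h1 c hc, h2 c hc, add_zero]
  zero_mem' c _ := rfl
  neg_mem' := by
    intro M h c hc
    show - M.1 c = 0
    rw [h c hc, neg_zero]

/-- The families which agree at the classes of `W`. -/
def DD (W : Finset (E ⊕ Q)) : AddSubgroup (XX (A := A) src tgt) where
  carrier := {M | ∀ c ∈ W, ∀ c' ∈ W, ∀ e, See src tgt c e → See src tgt c' e → M.1 c e = M.1 c' e}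
  add_mem' := by
    intro M N h1 h2 c hc c' hc' e he he'
    show M.1 c e + N.1 c e = M.1 c' e + N.1 c' e
    rw [h1 c hc c' hc' e he he', h2 c hc c' hc' e he he']
  zero_mem' := by
    intro c _ c' _ e _ _
    rfl
  neg_mem' := by
    intro M h c hc c' hc' e he he'
    show - M.1 c e = - M.1 c' e
    rw [h c hc c' hc' e he he']

variable (τ : Q → E → A)

/-- The solutions at the classes of `W`. -/
def SolS (W : Finset (E ⊕ Q)) : Set (XX (A := A) src tgt) :=
  {M | ∀ c ∈ W, ∀ c' ∈ W, ∀ e, See src tgt c e → See src tgt c' e →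
    M.1 c e + tw τ c e = M.1 c' e + tw τ c' e}

theorem DD_eq (W : Finset (E ⊕ Q)) :
    ((DD src tgt W : AddSubgroup (XX (A := A) src tgt)) : Set (XX (A := A) src tgt)) =
      SolS src tgt 0 W := by
  have h : ∀ (c : E ⊕ Q) (e : E), tw (0 : Q → E → A) c e = 0 := by
    intro c e
    rcases c with _ | _ <;> rfl
  ext M
  constructor
  · intro h1 c hc c' hc' e he he'
    rw [h, h, add_zero, add_zero]
    exact h1 c hc c' hc' e he he'
  · intro h1 c hc c' hc' e he he'
    have := h1 c hc c' hc' e he he'
    rwa [h, h, add_zero, add_zero] at this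

open Classical in
/-- The family with given functions, where this is possible. -/
noncomputable def mk (z : E ⊕ Q → E → A) : XX (A := A) src tgt :=
  ⟨fun c => if (fun e => if See src tgt c e then z c e else 0) ∈ GG (A := A) src tgt c then
    (fun e => if See src tgt c e then z c e else 0) else 0, fun c => by
      show (if (fun e => if See src tgt c e then z c e else 0) ∈ GG (A := A) src tgt c then
    (fun e => if See src tgt c e then z c e else 0) else 0) ∈ GG src tgt c
      split_ifs with h
      · exact h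
      · exact (GG src tgt c).zero_mem⟩

theorem mk_congr {z z' : E ⊕ Q → E → A} (c : E ⊕ Q)
    (h : ∀ e, See src tgt c e → z c e = z' c e) :
    (mk src tgt z).1 c = (mk src tgt z').1 c := by
  classical
  have h1 : (fun e => if See src tgt c e then z c e else 0) =
      fun e => if See src tgt c e then z' c e else 0 := by
    funext e
    by_cases he : See src tgt c e
    · rw [if_pos he, if_pos he, h e he]
    · rw [if_neg he, if_neg he]
  unfold mk
  simp only [h1]

theorem mk_apply {z : E ⊕ Q → E → A} (c : E ⊕ Q)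
    (h : ∀ v, c = .inr v → bd src tgt (z c) v = 0) (e : E) (he : See src tgt c e) :
    (mk src tgt z).1 c e = z c e := by
  classical
  have h1 : (fun e => if See src tgt c e then z c e else 0) ∈ GG (A := A) src tgt c := by
    refine ⟨fun e he => if_neg he, fun v hv => ?_⟩
    rw [← h v hv]
    subst hv
    exact bd_congr src tgt fun e he => if_pos he
  unfold mk
  simp only [if_pos h1, if_pos he]

/-- A family is determined by the values at the seen edges. -/
theorem ext_class {M N : XX (A := A) src tgt} (c : E ⊕ Q)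
    (h : ∀ e, See src tgt c e → M.1 c e = N.1 c e) : M.1 c = N.1 c := by
  funext e
  by_cases he : See src tgt c e
  · exact h e he
  · rw [(M.2 c).1 e he, (N.2 c).1 e he]

/-- There is a flow from `w` to `v` which avoids the edges seen by the classes of `W`. -/
def Cn (W : Finset (E ⊕ Q)) (v w : Q) : Prop :=
  ∃ f : E → A, (∀ c ∈ W, ∀ e, See src tgt c e → f e = 0) ∧
    ∀ u, bd src tgt f u = (if u = v then 1 else 0) - (if u = w then 1 else 0)

variable {src tgt}

theorem Cn.refl (W : Finset (E ⊕ Q)) (v : Q) : Cn (A := A) src tgt W v v :=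
  ⟨0, fun _ _ _ _ => rfl, fun u => by rw [bd_zero, sub_self]⟩

theorem Cn.symm {W : Finset (E ⊕ Q)} {v w : Q} (h : Cn (A := A) src tgt W v w) :
    Cn (A := A) src tgt W w v := by
  obtain ⟨f, h1, h2⟩ := h
  refine ⟨-f, fun c hc e he => ?_, fun u => ?_⟩
  · rw [Pi.neg_apply, h1 c hc e he, neg_zero]
  · rw [bd_neg, h2 u, neg_sub]

theorem Cn.trans {W : Finset (E ⊕ Q)} {v w u : Q} (h : Cn (A := A) src tgt W v w)
    (h' : Cn (A := A) src tgt W w u) : Cn (A := A) src tgt W v u := by
  obtain ⟨f, h1, h2⟩ := h
  obtain ⟨g, h3, h4⟩ := h'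
  refine ⟨f + g, fun c hc e he => ?_, fun x => ?_⟩
  · rw [Pi.add_apply, h1 c hc e he, h3 c hc e he, add_zero]
  · rw [bd_add, h2 x, h4 x]
    ring

theorem Cn.edge {W : Finset (E ⊕ Q)} [DecidableEq E] {e : E}
    (h : ∀ c ∈ W, ¬ See src tgt c e) : Cn (A := A) src tgt W (tgt e) (src e) := by
  refine ⟨Pi.single e 1, fun c hc e' he => ?_, fun u => bd_single src tgt e u⟩
  rw [Pi.single_eq_of_ne]
  rintro rfl
  exact h c hc he

/-- A local solution comes from a function which is a solution at all nodes but one. -/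
theorem exists_glob [Fintype Q] {W : Finset (E ⊕ Q)} {M₀ : XX (A := A) src tgt}
    (hM₀ : M₀ ∈ SolS src tgt τ W) {r : Q}
    (hW : ∀ v, Sum.inr v ∉ W → Cn (A := A) src tgt W v r) :
    ∃ y : E → A, (∀ c ∈ W, ∀ e, See src tgt c e → y e = M₀.1 c e + tw τ c e) ∧
      ∀ v, v ≠ r → bd src tgt y v = bd src tgt (τ v) v := by
  classical
  let y₀ : E → A := fun e => if h : ∃ c ∈ W, See src tgt c e then
    M₀.1 h.choose e + tw τ h.choose e else 0
  have h0 : ∀ c ∈ W, ∀ e, See src tgt c e → y₀ e = M₀.1 c e + tw τ c e := by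
    intro c hc e he
    have h : ∃ c ∈ W, See src tgt c e := ⟨c, hc, he⟩
    show (if h : ∃ c ∈ W, See src tgt c e then
      M₀.1 h.choose e + tw τ h.choose e else 0) = _
    rw [dif_pos h]
    exact hM₀ _ h.choose_spec.1 _ hc e h.choose_spec.2 he
  have h1 : ∀ v, Sum.inr v ∈ W → bd src tgt y₀ v = bd src tgt (τ v) v := by
    intro v hv
    have h2 : bd src tgt y₀ v = bd src tgt (M₀.1 (.inr v) + τ v) v :=
      bd_congr src tgt fun e he => h0 _ hv e he
    rw [h2, bd_add, (M₀.2 (.inr v)).2 v rfl, zero_add]
  choose f hf using hW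
  let g : Q → E → A := fun v => if h : Sum.inr v ∉ W then f v h else 0
  have hg : ∀ v, Sum.inr v ∉ W → (∀ c ∈ W, ∀ e, See src tgt c e → g v e = 0) ∧
    ∀ u, bd src tgt (g v) u = (if u = v then 1 else 0) - (if u = r then 1 else 0) := by
    intro v hv
    have : g v = f v hv := dif_pos hv
    rw [this]
    exact hf v hv
  refine ⟨y₀ + ∑ v ∈ univ.filter (fun v => Sum.inr v ∉ W),
    fun e => (bd src tgt (τ v) v - bd src tgt y₀ v) * g v e, ?_, ?_⟩
  · intro c hc e he
    rw [Pi.add_apply, Finset.sum_apply, h0 c hc e he]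
    convert add_zero _
    refine Finset.sum_eq_zero fun v hv => ?_
    rw [Finset.mem_filter] at hv
    rw [(hg v hv.2).1 c hc e he, mul_zero]
  · intro v hv
    rw [bd_add, bd_sum]
    have h2 : ∀ w ∈ univ.filter (fun v => Sum.inr v ∉ W), bd src tgt
        (fun e => (bd src tgt (τ w) w - bd src tgt y₀ w) * g w e) v =
        if w = v then bd src tgt (τ v) v - bd src tgt y₀ v else 0 := by
      intro w hw
      rw [Finset.mem_filter] at hw
      rw [bd_mul, (hg w hw.2).2 v, if_neg hv, sub_zero]
      by_cases h3 : w = v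
      · rw [if_pos h3, if_pos h3.symm, h3, mul_one]
      · rw [if_neg h3, if_neg (Ne.symm h3), mul_zero]
    rw [Finset.sum_congr rfl h2, Finset.sum_ite_eq']
    by_cases h3 : Sum.inr v ∈ W
    · rw [if_neg, add_zero, h1 v h3]
      rw [Finset.mem_filter]
      exact fun h => h.2 h3
    · rw [if_pos]
      · ring
      · rw [Finset.mem_filter]
        exact ⟨Finset.mem_univ v, h3⟩

end

end Pool.Agent.K4H90.AllF
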