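import Pool.Agent.K4H90.AllF.Cnt
import Pool.Agent.K4H90.AllF.Loc

/-!
# The base graph

It consists of `R` copies (regions) of the complete `D`-ary tree with `L` levels. The edges lead from
the nodes to their children. For every leaf `t` and every `a` there is one further node `(t, a)`, a
core, which belongs to all regions: the `a`-th edges of the `R` copies of `t` lead to it.
-/

set_option autoImplicit false
set_option linter.unusedSectionVars false

namespace Pool.Agent.K4H90.AllF

open Finset Pool.Agent.TH658.Dg Nd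

/-- The edges. -/
abbrev Ed (D L R : ℕ) : Type := Fin R × Nd D L × Fin D

/-- The leaves. -/
abbrev Lf (D L : ℕ) : Type := {t : Nd D L // lev t = 1}

/-- The nodes. -/
abbrev Qn (D L R : ℕ) : Type := (Fin R × Nd D L) ⊕ (Lf D L × Fin D)

/-- The classes. -/
abbrev Cl (D L R : ℕ) : Type := Ed D L R ⊕ Qn D L R

/-- The source of an edge. -/
def src {D L R : ℕ} (e : Ed D L R) : Qn D L R := .inl (e.1, e.2.1)

/-- The target of an edge. -/
def tgt {D L R : ℕ} (e : Ed D L R) : Qn D L R :=
  match h : child e.2.1 e.2.2 with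
  | some t => .inl (e.1, t)
  | none => .inr (⟨e.2.1, (child_none _ _).1 h⟩, e.2.2)

section

variable {D L R : ℕ}

theorem tgt_some {j : Fin R} {t t' : Nd D L} {a : Fin D} (h : child t a = some t') :
    tgt (j, t, a) = .inl (j, t') := by
  unfold tgt
  split
  · next t'' h' =>
    have h1 : some t'' = some t' := h'.symm.trans h
    rw [Option.some.inj h1]
  · next h' =>
    have h1 : (none : Option (Nd D L)) = some t' := h'.symm.trans h
    cases h1

theorem tgt_none {j : Fin R} {t : Nd D L} {a : Fin D} (h : child t a = none) :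
    tgt (j, t, a) = .inr (⟨t, (child_none _ _).1 h⟩, a) := by
  unfold tgt
  split
  · next t'' h' =>
    have h1 : some t'' = none := h'.symm.trans h
    cases h1
  · rfl

theorem tgt_inj {j : Fin R} {t : Nd D L} {a a' : Fin D} (h : tgt (j, t, a) = tgt (j, t, a')) :
    a = a' := by
  rcases h1 : child t a with _ | t₁ <;> rcases h2 : child t a' with _ | t₂
  · rw [tgt_none h1, tgt_none h2] at h
    exact (Prod.mk.inj (Sum.inr.inj h)).2
  · rw [tgt_none h1, tgt_some h2] at h
    cases h
  · rw [tgt_some h1, tgt_none h2] at h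
    cases h
  · rw [tgt_some h1, tgt_some h2] at h
    have h3 : t₁ = t₂ := (Prod.mk.inj (Sum.inl.inj h)).2
    subst h3
    exact (child_inj t t a a' t₁ h1 h2).2

/-- Few classes do not block all the edges which leave a node. -/
theorem exists_letter (W : Finset (Cl D L R)) (hW : W.card < D) (j : Fin R) (t : Nd D L) :
    ∃ a : Fin D, Sum.inl (j, t, a) ∉ W ∧ Sum.inr (tgt (j, t, a)) ∉ W := by
  classical
  by_contra h
  push Not at h
  let f : Fin D → Cl D L R := fun a =>
    if Sum.inl (j, t, a) ∈ W then .inl (j, t, a) else .inr (tgt (j, t, a))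
  have h1 : ∀ a ∈ (univ : Finset (Fin D)), f a ∈ W := by
    intro a _
    show (if Sum.inl (j, t, a) ∈ W then (.inl (j, t, a) : Cl D L R) else .inr (tgt (j, t, a))) ∈ W
    split_ifs with h2
    · exact h2
    · exact h a h2
  have h2 : Set.InjOn f (univ : Finset (Fin D)) := by
    intro a _ a' _ haa
    have h3 : (if Sum.inl (j, t, a) ∈ W then (.inl (j, t, a) : Cl D L R)
      else .inr (tgt (j, t, a))) = if Sum.inl (j, t, a') ∈ W then (.inl (j, t, a') : Cl D L R)
        else .inr (tgt (j, t, a')) := haa
    split_ifs at h3 with h4 h5 h6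
    · exact (Prod.mk.inj (Prod.mk.inj (Sum.inl.inj h3)).2).2
    · exact tgt_inj (Sum.inr.inj h3)
  have h3 := Finset.card_le_card_of_injOn f h1 h2
  rw [Finset.card_univ, Fintype.card_fin] at h3
  omega

/-- An edge is seen only by itself and its two nodes. -/
theorem not_see {W : Finset (Cl D L R)} {e : Ed D L R} (h1 : Sum.inl e ∉ W)
    (h2 : Sum.inr (tgt e) ∉ W) (h3 : Sum.inr (src e) ∉ W) : ∀ c ∈ W, ¬ See src tgt c e := by
  rintro (e' | v) hc h
  · have h4 : e = e' := h
    rw [← h4] at hc
    exact h1 hc
  · rcases h with h | h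
    · rw [← h] at hc
      exact h2 hc
    · rw [← h] at hc
      exact h3 hc

variable {A : Type} [CommRing A]

/-- Every node is connected to a core. -/
theorem conn_core {W : Finset (Cl D L R)} (hW : W.card < D) (j : Fin R) :
    ∀ (n : ℕ) (t : Nd D L), lev t ≤ n → Sum.inr (Sum.inl (j, t)) ∉ W →
      ∃ a : Lf D L × Fin D, Sum.inr (Sum.inr a) ∉ W ∧
        Cn (A := A) src tgt W (.inl (j, t)) (.inr a)
  | 0, t, h, _ => by
    have := lev_pos t
    omega
  | n + 1, t, h, ht => by
    obtain ⟨a, h1, h2⟩ := exists_letter W hW j t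
    have h3 : Cn (A := A) src tgt W (tgt (j, t, a)) (src (j, t, a)) := Cn.edge (not_see h1 h2 ht)
    have h3' : Cn (A := A) src tgt W (.inl (j, t)) (tgt (j, t, a)) := h3.symm
    rcases h4 : child t a with _ | t'
    · rw [tgt_none h4] at h2 h3'
      exact ⟨_, h2, h3'⟩
    · rw [tgt_some h4] at h2 h3'
      have h5 := child_lev t a t' h4
      obtain ⟨b, h6, h7⟩ := conn_core hW j n t' (by omega) h2
      exact ⟨b, h6, h3'.trans h7⟩

/-- The nodes which are not the root have a parent. -/
theorem exists_parent : ∀ {L : ℕ} (t : Nd D L), lev t < L → ∃ u a, child u a = some t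
  | _, root _, h => by
    rw [lev] at h
    omega
  | _, sub j (root L), _ => ⟨root (L + 1), j, rfl⟩
  | _, sub j (sub i t), h => by
    obtain ⟨u, a, h1⟩ := exists_parent (sub i t) (by
      have h2 := lev_le t
      rw [lev]
      omega)
    exact ⟨sub j u, a, by rw [child, h1]; rfl⟩

theorem eq_root : ∀ {L : ℕ} (t : Nd D (L + 1)), lev t = L + 1 → t = root L
  | _, root _, _ => rfl
  | _, sub j t, h => by
    have h2 := lev_le t
    rw [lev] at h
    omega

/-- No class of the `j`-th region is in `W`. -/
def Free (W : Finset (Cl D L R)) (j : Fin R) : Prop :=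
  (∀ t a, Sum.inl (j, t, a) ∉ W) ∧ ∀ t, Sum.inr (Sum.inl (j, t)) ∉ W

theorem exists_free (W : Finset (Cl D L R)) (hW : W.card < R) : ∃ j, Free W j := by
  classical
  let f : Cl D L R → Option (Fin R) := fun c =>
    match c with
    | .inl e => some e.1
    | .inr (.inl v) => some v.1
    | .inr (.inr _) => none
  by_contra h
  push Not at h
  have h1 : ∀ j : Fin R, some j ∈ W.image f := by
    intro j
    have h2 := h j
    rw [Free, not_and_or] at h2
    push Not at h2
    rw [mem_image]
    rcases h2 with ⟨t, a, h2⟩ | ⟨t, h2⟩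
    · exact ⟨_, h2, rfl⟩
    · exact ⟨_, h2, rfl⟩
  have h2 : (univ.image (some : Fin R → Option (Fin R))).card ≤ (W.image f).card := by
    refine card_le_card fun x hx => ?_
    obtain ⟨j, -, rfl⟩ := mem_image.1 hx
    exact h1 j
  rw [card_image_of_injective _ (Option.some_injective _), card_univ, Fintype.card_fin] at h2
  have h3 := card_image_le (s := W) (f := f)
  omega

end

section

variable {D L R : ℕ} {A : Type} [CommRing A]

theorem conn_root {W : Finset (Cl D (L + 1) R)} {j : Fin R} (hj : Free W j) :
    ∀ (n : ℕ) (t : Nd D (L + 1)), L + 1 ≤ lev t + n →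
      Cn (A := A) src tgt W (.inl (j, t)) (.inl (j, root L))
  | 0, t, h => by
    rw [eq_root t (le_antisymm (lev_le t) h)]
    exact Cn.refl _ _
  | n + 1, t, h => by
    by_cases h1 : lev t < L + 1
    · obtain ⟨u, a, h2⟩ := exists_parent t h1
      have h3 := child_lev u a t h2
      have h4 := conn_root hj n u (by omega)
      refine Cn.trans ?_ h4
      have h5 : Cn (A := A) src tgt W (tgt (j, u, a)) (src (j, u, a)) := by
        refine Cn.edge (not_see (hj.1 _ _) ?_ (hj.2 _))
        rw [tgt_some h2]
        exact hj.2 _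
      rwa [tgt_some h2] at h5
    · rw [eq_root t (le_antisymm (lev_le t) (by omega))]
      exact Cn.refl _ _

/-- All nodes which are not in `W` are connected to the root of a free region. -/
theorem conn {W : Finset (Cl D (L + 1) R)} (hW : W.card < D) {j : Fin R} (hj : Free W j)
    (v : Qn D (L + 1) R) (hv : Sum.inr v ∉ W) :
    Cn (A := A) src tgt W v (.inl (j, root L)) := by
  have key : ∀ a : Lf D (L + 1) × Fin D, Sum.inr (Sum.inr a) ∉ W →
      Cn (A := A) src tgt W (.inr a) (.inl (j, root L)) := by
    rintro ⟨⟨t, ht⟩, a⟩ ha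
    have h1 := (child_none t a).2 ht
    refine Cn.trans ?_ (conn_root hj (L + 1) t (by omega))
    have h5 : Cn (A := A) src tgt W (tgt (j, t, a)) (src (j, t, a)) := by
      refine Cn.edge (not_see (hj.1 _ _) ?_ (hj.2 _))
      rw [tgt_none h1]
      exact ha
    rwa [tgt_none h1] at h5
  rcases v with ⟨i, t⟩ | a
  · obtain ⟨a, h1, h2⟩ := conn_core (A := A) hW i (lev t) t le_rfl hv
    exact h2.trans (key a h1)
  · exact key a hv

end

end Pool.Agent.K4H90.AllF
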