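import Mathlib

/-!
# Counting subtrees modulo `p`

`Nd D L` is the set of the nodes of the complete `D`-ary tree with `L` levels. A configuration
assigns a set of children (letters) to every node. It is valid if the active nodes have exactly `P`
chosen children, where `P` is a power of `p`, the other nodes have no chosen children, and the active
nodes are the chosen children of active nodes (and the root, if it is wanted). We show that modulo
`p` few nodes cannot see the valid configurations: if `D = P + κ`, `κ < P`, then for each function
of the configuration at fewer than `L` and fewer than `κ` nodes, the sum over the valid configurations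
in which a fixed child of a leaf is chosen is zero in a field of characteristic `p`.
-/

set_option autoImplicit false
set_option linter.unusedSectionVars false

namespace Pool.Agent.K4H90.AllF

open Finset

/-! ### Sets of size `P` -/

section choose

variable {K : Type} [Field K] {p : ℕ} [Fact p.Prime] [CharP K p]

/-- The number of sets `S` of size `P` with a given intersection `J` with `T`. -/
theorem card_inter {α : Type} [Fintype α] [DecidableEq α] (T J : Finset α) (hJ : J ⊆ T) (P : ℕ)
    (hP : J.card ≤ P) :
    ((powersetCard P (univ : Finset α)).filter fun S => S ∩ T = J).card =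
      ((univ \ T : Finset α).card).choose (P - J.card) := by
  rw [← card_powersetCard]
  refine Finset.card_bij' (fun S _ => S \ T) (fun R _ => J ∪ R) ?_ ?_ ?_ ?_
  · intro S hS
    rw [mem_filter, mem_powersetCard] at hS
    obtain ⟨⟨-, h1⟩, h2⟩ := hS
    rw [mem_powersetCard]
    refine ⟨sdiff_subset_sdiff (subset_univ _) le_rfl, ?_⟩
    have h3 := card_sdiff_add_card_inter S T
    rw [h2, h1] at h3
    omega
  · intro R hR
    rw [mem_powersetCard] at hR
    obtain ⟨h1, h2⟩ := hR
    have hRT : ∀ x ∈ R, x ∉ T := fun x hx => (mem_sdiff.1 (h1 hx)).2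
    rw [mem_filter, mem_powersetCard]
    refine ⟨⟨subset_univ _, ?_⟩, ?_⟩
    · rw [card_union_of_disjoint, h2]
      · omega
      · rw [disjoint_left]
        intro x hx hx'
        exact hRT x hx' (hJ hx)
    · ext x
      rw [mem_inter, mem_union]
      constructor
      · rintro ⟨h3 | h3, h4⟩
        · exact h3
        · exact absurd h4 (hRT x h3)
      · intro h3
        exact ⟨Or.inl h3, hJ h3⟩
  · intro S hS
    rw [mem_filter] at hS
    ext x
    rw [mem_union, mem_sdiff, ← hS.2, mem_inter]
    tauto
  · intro R hR
    rw [mem_powersetCard] at hR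
    obtain ⟨h1, h2⟩ := hR
    have hRT : ∀ x ∈ R, x ∉ T := fun x hx => (mem_sdiff.1 (h1 hx)).2
    ext x
    rw [mem_sdiff, mem_union]
    constructor
    · rintro ⟨h3 | h3, h4⟩
      · exact absurd (hJ h3) h4
      · exact h3
    · intro h3
      exact ⟨Or.inr h3, hRT x h3⟩

/-- Modulo `p`, the sets of size `P` look like the empty set on few elements. -/
theorem sum_powersetCard (m κ : ℕ) (hκ : κ < p ^ m) (g : Finset (Fin (p ^ m + κ)) → K)
    (T : Finset (Fin (p ^ m + κ))) (hT : T.card ≤ κ) (hg : ∀ S, g S = g (S ∩ T)) :
    ∑ S ∈ powersetCard (p ^ m) univ, g S = g ∅ := by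
  classical
  obtain ⟨T', hTT, -, hT'⟩ := exists_subsuperset_card_eq (s := T) (t := univ) (subset_univ _) hT
    (by rw [card_univ, Fintype.card_fin]; omega)
  have hg' : ∀ S, g S = g (S ∩ T') := by
    intro S
    rw [hg S, hg (S ∩ T')]
    congr 1
    rw [inter_assoc, inter_eq_right.2 hTT]
  have h1 : ∑ S ∈ powersetCard (p ^ m) univ, g S =
      ∑ J ∈ T'.powerset, ∑ S ∈ (powersetCard (p ^ m) univ).filter (fun S => S ∩ T' = J), g S := by
    refine (sum_fiberwise_of_maps_to ?_ _).symm
    intro S _
    rw [mem_powerset]
    exact inter_subset_right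
  rw [h1]
  have hc : (univ \ T' : Finset (Fin (p ^ m + κ))).card = p ^ m := by
    rw [card_sdiff_of_subset (subset_univ _), card_univ, Fintype.card_fin, hT']
    omega
  have h2 : ∀ J ∈ T'.powerset, ∑ S ∈ (powersetCard (p ^ m) univ).filter (fun S => S ∩ T' = J), g S =
      if J = ∅ then g ∅ else 0 := by
    intro J hJ
    rw [mem_powerset] at hJ
    have hJc : J.card ≤ κ := (card_le_card hJ).trans hT'.le
    have h3 : ∀ S ∈ (powersetCard (p ^ m) univ).filter (fun S => S ∩ T' = J), g S = g J := by
      intro S hS
      rw [mem_filter] at hS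
      rw [hg' S, hS.2]
    rw [sum_congr rfl h3, sum_const, card_inter T' J hJ _ (by omega), hc]
    by_cases hJ0 : J = ∅
    · subst hJ0
      rw [if_pos rfl, card_empty, Nat.sub_zero, Nat.choose_self, one_nsmul]
    · rw [if_neg hJ0]
      have h4 : 0 < J.card := card_pos.2 (nonempty_iff_ne_empty.2 hJ0)
      have h5 : p ∣ (p ^ m).choose (p ^ m - J.card) :=
        (Fact.out : p.Prime).dvd_choose_pow (by omega) (by omega)
      rw [nsmul_eq_mul]
      have h6 : (((p ^ m).choose (p ^ m - J.card) : ℕ) : K) = 0 :=
        (CharP.cast_eq_zero_iff K p _).2 h5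
      rw [h6, zero_mul]
  rw [sum_congr rfl h2, sum_ite_eq']
  simp

end choose

/-! ### The nodes of the tree -/

/-- The nodes of the complete `D`-ary tree with `L` levels: the root, and the nodes `sub j t`, where
`t` is a node of the subtree at the `j`-th child of the root. -/
inductive Nd (D : ℕ) : ℕ → Type
  | root (L : ℕ) : Nd D (L + 1)
  | sub {L : ℕ} (j : Fin D) (t : Nd D L) : Nd D (L + 1)
  deriving DecidableEq

open Nd

/-- The nodes of a tree with at least one level. -/
def ndEquiv (D L : ℕ) : Nd D (L + 1) ≃ Option (Fin D × Nd D L) where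
  toFun
    | root _ => none
    | sub j t => some (j, t)
  invFun
    | none => root L
    | some x => sub x.1 x.2
  left_inv t := by cases t <;> rfl
  right_inv x := by rcases x with _ | ⟨j, t⟩ <;> rfl

instance instFin (D : ℕ) : (L : ℕ) → Fintype (Nd D L)
  | 0 => ⟨∅, fun t => nomatch t⟩
  | L + 1 =>
    have := instFin D L
    Fintype.ofEquiv _ (ndEquiv D L).symm

/-- The level of a node: the root has level `L`, the leaves have level `1`. -/
def lev {D : ℕ} : {L : ℕ} → Nd D L → ℕ
  | _, root L => L + 1
  | _, sub _ t => lev t

/-- The `a`-th child of a node; leaves have no children. -/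
def child {D : ℕ} : {L : ℕ} → Nd D L → Fin D → Option (Nd D L)
  | _, root 0, _ => none
  | _, root (L + 1), a => some (sub a (root L))
  | _, sub j t, a => (child t a).map (sub j)

/-- The nodes on the way from the root to a node. -/
def anc {D : ℕ} : {L : ℕ} → Nd D L → Finset (Nd D L)
  | _, root L => {root L}
  | _, sub j t => insert (root _) ((anc t).image (sub j))

theorem sub_inj {D L : ℕ} {j i : Fin D} {t u : Nd D L} (h : sub j t = sub i u) :
    j = i ∧ t = u := by
  cases h
  exact ⟨rfl, rfl⟩

theorem sub_injective {D L : ℕ} (j : Fin D) : Function.Injective (sub (L := L) j) :=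
  fun _ _ h => (sub_inj h).2

theorem lev_pos {D : ℕ} : ∀ {L : ℕ} (t : Nd D L), 1 ≤ lev t
  | _, root L => Nat.le_add_left 1 L
  | _, sub _ t => lev_pos t

theorem lev_le {D : ℕ} : ∀ {L : ℕ} (t : Nd D L), lev t ≤ L
  | _, root _ => le_rfl
  | _, sub (L := L) _ t => (lev_le t).trans (Nat.le_succ L)

theorem lev_anc {D : ℕ} : ∀ {L : ℕ} (t : Nd D L), lev t + (anc t).card = L + 1
  | _, root L => by
    rw [anc, card_singleton, lev]
  | _, sub (L := L) j t => by
    have h := lev_anc t
    rw [anc, card_insert_of_notMem, card_image_of_injective _ (sub_injective j), lev]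
    · omega
    · rw [mem_image]
      rintro ⟨t', -, h'⟩
      cases h'

theorem child_lev {D : ℕ} : ∀ {L : ℕ} (t : Nd D L) (a : Fin D) (t' : Nd D L), child t a = some t' →
    lev t' + 1 = lev t
  | _, root 0, _, _, h => by cases h
  | _, root (L + 1), a, t', h => by
    have h2 : sub a (root L) = t' := Option.some.inj h
    subst h2
    rfl
  | _, sub j t, a, t', h => by
    rw [child, Option.map_eq_some_iff] at h
    obtain ⟨s, h2, rfl⟩ := h
    rw [lev, lev]
    exact child_lev t a s h2

theorem child_none {D : ℕ} : ∀ {L : ℕ} (t : Nd D L) (a : Fin D), child t a = none ↔ lev t = 1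
  | _, root 0, _ => by
    rw [child, lev]
    simp
  | _, root (L + 1), a => by
    rw [child, lev]
    simp
  | _, sub j t, a => by
    rw [child, lev, Option.map_eq_none_iff, child_none t a]

theorem child_inj {D : ℕ} : ∀ {L : ℕ} (t u : Nd D L) (a b : Fin D) (t' : Nd D L),
    child t a = some t' → child u b = some t' → t = u ∧ a = b
  | _, root 0, _, _, _, _, h, _ => by cases h
  | _, root (L + 1), root _, a, b, t', h, h' => by
    rw [child] at h h'
    exact ⟨rfl, (sub_inj (Option.some.inj (h.trans h'.symm))).1⟩
  | _, root (L + 1), sub j u, a, b, t', h, h' => by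
    exfalso
    have h1 := child_lev _ _ _ h
    have h2 := child_lev _ _ _ h'
    have h3 := lev_le u
    rw [h1, lev, lev] at h2
    omega
  | _, sub j t, root _, a, b, t', h', h => by
    exfalso
    have h1 := child_lev _ _ _ h
    have h2 := child_lev _ _ _ h'
    have h3 := lev_le t
    rw [h1, lev, lev] at h2
    omega
  | _, sub j t, sub i u, a, b, t', h, h' => by
    rw [child, Option.map_eq_some_iff] at h h'
    obtain ⟨s, h1, h2⟩ := h
    obtain ⟨s', h3, h4⟩ := h'
    rw [← h4] at h2
    obtain ⟨rfl, rfl⟩ := sub_inj h2
    obtain ⟨h8, h9⟩ := child_inj t u a b s h1 h3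
    exact ⟨by rw [h8], h9⟩

/-! ### Configurations -/

/-- A configuration assigns a set of children to every node. -/
abbrev Cfg (D L : ℕ) : Type := Nd D L → Finset (Fin D)

/-- The configuration with the set `S` at the root and the configurations `f j` below. -/
def cons {D L : ℕ} (S : Finset (Fin D)) (f : Fin D → Cfg D L) : Cfg D (L + 1)
  | root _ => S
  | sub j t => f j t

/-- Configurations of a tree with at least one level. -/
def cfgEquiv (D L : ℕ) : Cfg D (L + 1) ≃ Finset (Fin D) × (Fin D → Cfg D L) where
  toFun σ := (σ (root L), fun j t => σ (sub j t))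
  invFun x := cons x.1 x.2
  left_inv σ := by
    funext t
    cases t <;> rfl
  right_inv x := rfl

theorem sum_cfg {K : Type} [AddCommMonoid K] {D L : ℕ} (F : Cfg D (L + 1) → K) :
    ∑ σ, F σ = ∑ S : Finset (Fin D), ∑ f : Fin D → Cfg D L, F (cons S f) := by
  rw [← (cfgEquiv D L).symm.sum_comp, Fintype.sum_prod_type]
  rfl

/-- The indicator of the valid configurations; the root is active if `b = true`. -/
def wt (K : Type) [Field K] (P : ℕ) {D : ℕ} : (L : ℕ) → Bool → Cfg D L → K
  | 0, _, _ => 1
  | L + 1, b, σ => (if (if b = true then (σ (root L)).card = P else σ (root L) = ∅) then 1 else 0) *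
      ∏ j, wt K P L (decide (j ∈ σ (root L))) (fun t => σ (sub j t))

theorem wt_cons (K : Type) [Field K] (P : ℕ) {D L : ℕ} (b : Bool) (S : Finset (Fin D))
    (f : Fin D → Cfg D L) : wt K P (L + 1) b (cons S f) =
      (if (if b = true then S.card = P else S = ∅) then 1 else 0) *
      ∏ j, wt K P L (decide (j ∈ S)) (f j) := rfl

/-- In a valid configuration with inactive root all sets are empty. -/
theorem wt_false (K : Type) [Field K] (P : ℕ) {D : ℕ} : ∀ {L : ℕ} (σ : Cfg D L),
    wt K P L false σ ≠ 0 → ∀ t, σ t = ∅
  | L + 1, σ, h, t => by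
    have h' : (if (if false = true then (σ (root L)).card = P else σ (root L) = ∅) then (1 : K) else 0) *
        ∏ j, wt K P L (decide (j ∈ σ (root L))) (fun t => σ (sub j t)) ≠ 0 := h
    have h1 := left_ne_zero_of_mul h'
    have h2 := right_ne_zero_of_mul h'
    have h3 : σ (root L) = ∅ := by
      by_contra h4
      apply h1
      simp only [Bool.false_eq_true, if_false, if_neg h4]
    cases t with
    | root => exact h3
    | sub j t =>
      rw [Finset.prod_ne_zero_iff] at h2
      have h4 := h2 j (mem_univ j)
      rw [h3] at h4
      exact wt_false K P _ (by simpa using h4) t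

section marg

variable {K : Type} [Field K] {D : ℕ} {C : Type} [Fintype C]

open Classical in
/-- The sum over all families, where one coordinate does not matter. -/
theorem sum_split (j₀ : Fin D) (v : Fin D → C → K) (Φ : (Fin D → C) → K) (x₀ : C)
    (hv : ∑ x, v j₀ x = 1) (hΦ : ∀ f x, Φ (Function.update f j₀ x) = Φ f) :
    ∑ f : Fin D → C, (∏ j, v j (f j)) * Φ f =
      ∑ f ∈ (univ : Finset (Fin D → C)).filter (fun f => f j₀ = x₀),
        (∏ j ∈ univ.erase j₀, v j (f j)) * Φ f := by
  classical
  have h1 : ∀ f : Fin D → C, (∏ j, v j (f j)) * Φ f =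
      v j₀ (f j₀) * ((∏ j ∈ univ.erase j₀, v j (f j)) * Φ f) := by
    intro f
    rw [← Finset.mul_prod_erase univ _ (mem_univ j₀), mul_assoc]
  rw [Finset.sum_congr rfl fun f _ => h1 f]
  have h2 : ∑ f : Fin D → C, v j₀ (f j₀) * ((∏ j ∈ univ.erase j₀, v j (f j)) * Φ f) =
      ∑ f ∈ (univ : Finset (Fin D → C)).filter (fun f => f j₀ = x₀),
        ∑ x : C, v j₀ x * ((∏ j ∈ univ.erase j₀, v j (f j)) * Φ f) := by
    rw [← Finset.sum_product']
    refine Finset.sum_bij' (fun f _ => (Function.update f j₀ x₀, f j₀))
      (fun q _ => Function.update q.1 j₀ q.2) ?_ ?_ ?_ ?_ ?_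
    · intro f _
      simp
    · intro q _
      exact mem_univ _
    · intro f _
      simp
    · rintro ⟨f, x⟩ h
      have h3 : f j₀ = x₀ := by simpa using h
      simp only [Function.update_idem, Function.update_self, Prod.mk.injEq, and_true]
      rw [← h3, Function.update_eq_self]
    · intro f _
      show _ = v j₀ (f j₀) * ((∏ j ∈ univ.erase j₀, v j (Function.update f j₀ x₀ j)) *
        Φ (Function.update f j₀ x₀))
      rw [hΦ]
      congr 2
      refine Finset.prod_congr rfl fun j hj => ?_
      rw [Function.update_of_ne (ne_of_mem_erase hj)]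
  rw [h2]
  refine Finset.sum_congr rfl fun f _ => ?_
  rw [← Finset.sum_mul, hv, one_mul]

/-- The weights of the coordinates which do not matter can be changed. -/
theorem sum_change (T : Finset (Fin D)) (v v' : Fin D → C → K) (Φ : (Fin D → C) → K)
    (hv : ∀ j, ∑ x, v j x = 1) (hv' : ∀ j, ∑ x, v' j x = 1)
    (heq : ∀ j, j ∉ T → v j = v' j) (hΦ : ∀ j ∈ T, ∀ f x, Φ (Function.update f j x) = Φ f) :
    ∑ f : Fin D → C, (∏ j, v j (f j)) * Φ f = ∑ f : Fin D → C, (∏ j, v' j (f j)) * Φ f := by
  classical
  induction T using Finset.induction_on generalizing v with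
  | empty =>
    have : v = v' := funext fun j => heq j (notMem_empty j)
    rw [this]
  | insert j₀ T hj ih =>
    by_cases hC : Nonempty C
    · obtain ⟨x₀⟩ := hC
      rw [← ih (Function.update v j₀ (v' j₀)) ?_ ?_ ?_]
      · rw [sum_split j₀ v Φ x₀ (hv j₀) (hΦ j₀ (mem_insert_self _ _)),
          sum_split j₀ (Function.update v j₀ (v' j₀)) Φ x₀ (by
            rw [Function.update_self]
            exact hv' j₀) (hΦ j₀ (mem_insert_self _ _))]
        refine Finset.sum_congr rfl fun f _ => ?_
        congr 1
        refine Finset.prod_congr rfl fun j hj => ?_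
        rw [Function.update_of_ne (ne_of_mem_erase hj)]
      · intro j
        by_cases h : j = j₀
        · subst h
          rw [Function.update_self]
          exact hv' j
        · rw [Function.update_of_ne h]
          exact hv j
      · intro j h
        by_cases h' : j = j₀
        · subst h'
          rw [Function.update_self]
        · rw [Function.update_of_ne h']
          exact heq j (by
            rw [mem_insert]
            tauto)
      · intro j h
        exact hΦ j (mem_insert_of_mem h)
    · exfalso
      have h1 := hv j₀
      rw [not_nonempty_iff] at hC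
      rw [Finset.univ_eq_empty, Finset.sum_empty] at h1
      exact zero_ne_one h1

end marg

section main

variable {K : Type} [Field K] {p : ℕ} [Fact p.Prime] [CharP K p] {m κ : ℕ}

theorem sum_fam {D : ℕ} {C : Type} [Fintype C] (v : Fin D → C → K) :
    ∑ f : Fin D → C, ∏ j, v j (f j) = ∏ j, ∑ x, v j x := by
  classical
  rw [Finset.prod_univ_sum, Fintype.piFinset_univ]

/-- The number of valid configurations is `1` modulo `p`. -/
theorem sum_wt (hκ : κ < p ^ m) : ∀ (L : ℕ) (b : Bool),
    ∑ σ : Cfg (p ^ m + κ) L, wt K (p ^ m) L b σ = 1
  | 0, b => by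
    have h : ∀ σ : Cfg (p ^ m + κ) 0, wt K (p ^ m) 0 b σ = 1 := fun σ => rfl
    rw [Finset.sum_congr rfl fun σ _ => h σ, Finset.sum_const, Finset.card_univ]
    have h1 : Fintype.card (Cfg (p ^ m + κ) 0) = 1 := by
      rw [Fintype.card_eq_one_iff]
      exact ⟨fun t => (nomatch t : Finset _), fun σ => funext fun t => nomatch t⟩
    rw [h1, one_nsmul]
  | L + 1, b => by
    classical
    rw [sum_cfg]
    simp only [wt_cons]
    have h1 : ∀ S : Finset (Fin (p ^ m + κ)), ∑ f : Fin (p ^ m + κ) → Cfg (p ^ m + κ) L,
        (if (if b = true then S.card = p ^ m else S = ∅) then (1 : K) else 0) *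
          ∏ j, wt K (p ^ m) L (decide (j ∈ S)) (f j) =
        (if (if b = true then S.card = p ^ m else S = ∅) then (1 : K) else 0) := by
      intro S
      rw [← Finset.mul_sum, sum_fam]
      simp only [sum_wt hκ L, Finset.prod_const_one, mul_one]
    rw [Finset.sum_congr rfl fun S _ => h1 S]
    cases b with
    | true =>
      simp only [if_true]
      rw [← Finset.sum_filter]
      have h2 : ∑ S ∈ powersetCard (p ^ m) (univ : Finset (Fin (p ^ m + κ))), (1 : K) = 1 :=
        sum_powersetCard (K := K) (p := p) m κ hκ (fun _ => 1) ∅ (by simp) (fun _ => rfl)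
      refine Eq.trans (Finset.sum_congr ?_ fun _ _ => rfl) h2
      ext S
      rw [mem_filter, mem_powersetCard]
      simp
    | false =>
      simp

/-- `F` is determined by the sets at the nodes in `U`. -/
def Dep {D L : ℕ} (U : Finset (Nd D L)) (F : Cfg D L → K) : Prop :=
  ∀ σ σ', (∀ t ∈ U, σ t = σ' t) → F σ = F σ'

/-- Few nodes cannot see the valid configurations with a chosen child at the node `s`, if a node on
the way from the root to `s` is missing. -/
theorem sum_zero (hκ : κ < p ^ m) : ∀ (L : ℕ) (b : Bool) (U : Finset (Nd (p ^ m + κ) L))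
    (s : Nd (p ^ m + κ) L) (a : Fin (p ^ m + κ)) (F : Cfg (p ^ m + κ) L → K), Dep U F →
    (∃ t ∈ anc s, t ∉ U) → U.card + 1 ≤ κ →
    ∑ σ, wt K (p ^ m) L b σ * (F σ * (if a ∈ σ s then 1 else 0)) = 0
  | 0, _, _, s, _, _, _, _, _ => nomatch s
  | L + 1, false, U, s, a, F, _, _, _ => by
    refine Finset.sum_eq_zero fun σ _ => ?_
    by_cases h : wt K (p ^ m) (L + 1) false σ = 0
    · rw [h, zero_mul]
    · rw [wt_false K _ σ h s, if_neg (notMem_empty a), mul_zero, mul_zero]
  | L + 1, true, U, s, a, F, hF, hs, hU => by
    classical
    rw [sum_cfg]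
    simp only [wt_cons, if_true]
    by_cases hr : root L ∈ U
    · -- the root is seen, so the missing node is below
      obtain ⟨t, ht, htU⟩ := hs
      cases s with
      | root =>
        rw [anc, mem_singleton] at ht
        rw [ht] at htU
        exact absurd hr htU
      | sub j₀ s =>
        rw [anc, mem_insert, mem_image] at ht
        rcases ht with ht | ⟨t', ht', rfl⟩
        · rw [ht] at htU
          exact absurd hr htU
        refine Finset.sum_eq_zero fun S _ => ?_
        let U' : Finset (Nd (p ^ m + κ) L) := univ.filter fun t => sub j₀ t ∈ U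
        have hU' : U'.card ≤ U.card := by
          rw [← Finset.card_image_of_injective U' (sub_injective j₀)]
          refine card_le_card ?_
          intro x hx
          rw [mem_image] at hx
          obtain ⟨y, hy, rfl⟩ := hx
          exact (mem_filter.1 hy).2
        -- group the families by their values outside `j₀`
        have h1 : ∀ f : Fin (p ^ m + κ) → Cfg (p ^ m + κ) L,
            (if S.card = p ^ m then (1 : K) else 0) *
              (∏ j, wt K (p ^ m) L (decide (j ∈ S)) (f j)) *
              (F (cons S f) * (if a ∈ cons S f (sub j₀ s) then 1 else 0)) =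
            wt K (p ^ m) L (decide (j₀ ∈ S)) (f j₀) *
              ((if S.card = p ^ m then (1 : K) else 0) *
                (∏ j ∈ univ.erase j₀, wt K (p ^ m) L (decide (j ∈ S)) (f j)) *
                (F (cons S f) * (if a ∈ f j₀ s then 1 else 0))) := by
          intro f
          rw [← Finset.mul_prod_erase univ _ (mem_univ j₀)]
          show _ * _ * (F (cons S f) * (if a ∈ f j₀ s then 1 else 0)) = _
          ring
        rw [Finset.sum_congr rfl fun f _ => h1 f]
        have h2 : ∑ f : Fin (p ^ m + κ) → Cfg (p ^ m + κ) L,
            wt K (p ^ m) L (decide (j₀ ∈ S)) (f j₀) *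
              ((if S.card = p ^ m then (1 : K) else 0) *
                (∏ j ∈ univ.erase j₀, wt K (p ^ m) L (decide (j ∈ S)) (f j)) *
                (F (cons S f) * (if a ∈ f j₀ s then 1 else 0))) =
            ∑ f ∈ (univ : Finset (Fin (p ^ m + κ) → Cfg (p ^ m + κ) L)).filter
                (fun f => f j₀ = fun _ => ∅),
              ∑ x : Cfg (p ^ m + κ) L, wt K (p ^ m) L (decide (j₀ ∈ S)) x *
              ((if S.card = p ^ m then (1 : K) else 0) *
                (∏ j ∈ univ.erase j₀, wt K (p ^ m) L (decide (j ∈ S)) (f j)) *
                (F (cons S (Function.update f j₀ x)) * (if a ∈ x s then 1 else 0))) := by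
          rw [← Finset.sum_product']
          refine Finset.sum_bij' (fun f _ => (Function.update f j₀ (fun _ => ∅), f j₀))
            (fun q _ => Function.update q.1 j₀ q.2) ?_ ?_ ?_ ?_ ?_
          · intro f _
            simp
          · intro q _
            exact mem_univ _
          · intro f _
            simp
          · rintro ⟨f, x⟩ h
            have h3 : f j₀ = fun _ => ∅ := by simpa using h
            simp only [Function.update_idem, Function.update_self, Prod.mk.injEq, and_true]
            rw [← h3, Function.update_eq_self]
          · intro f _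
            simp only [Function.update_idem, Function.update_eq_self]
            congr 3
            refine Finset.prod_congr rfl fun j hj => ?_
            rw [Function.update_of_ne (ne_of_mem_erase hj)]
        rw [h2]
        refine Finset.sum_eq_zero fun f _ => ?_
        have h3 := sum_zero hκ L (decide (j₀ ∈ S)) U' s a
          (fun x => (if S.card = p ^ m then (1 : K) else 0) *
                (∏ j ∈ univ.erase j₀, wt K (p ^ m) L (decide (j ∈ S)) (f j)) *
                F (cons S (Function.update f j₀ x))) ?_ ⟨t', ht', ?_⟩ (by omega)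
        · refine Eq.trans (Finset.sum_congr rfl fun x _ => ?_) h3
          ring
        · intro x x' hx
          show _ * _ * F _ = _ * _ * F _
          congr 1
          apply hF
          intro t ht
          cases t with
          | root => rfl
          | sub j t =>
            show Function.update f j₀ x j t = Function.update f j₀ x' j t
            by_cases hj : j = j₀
            · subst hj
              rw [Function.update_self, Function.update_self]
              exact hx t (mem_filter.2 ⟨mem_univ _, ht⟩)
            · rw [Function.update_of_ne hj, Function.update_of_ne hj]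
        · intro h4
          exact htU (mem_filter.1 h4).2
    · -- the root is not seen
      let first : Nd (p ^ m + κ) (L + 1) → Fin (p ^ m + κ) := fun t =>
        match t with
        | root _ => a
        | sub j _ => j
      let T : Finset (Fin (p ^ m + κ)) := insert (first s) (U.image first)
      have hT : T.card ≤ κ := by
        refine (card_insert_le _ _).trans ?_
        have := card_image_le (s := U) (f := first)
        omega
      -- the function of the children
      let Φ : Finset (Fin (p ^ m + κ)) → (Fin (p ^ m + κ) → Cfg (p ^ m + κ) L) → K := fun S f =>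
        F (cons ∅ f) * (if a ∈ cons (S ∩ T) f s then 1 else 0)
      have hΦ : ∀ S f, F (cons S f) * (if a ∈ cons S f s then (1 : K) else 0) = Φ S f := by
        intro S f
        have h1 : F (cons S f) = F (cons ∅ f) := by
          apply hF
          intro t ht
          cases t with
          | root => exact absurd ht hr
          | sub j t => rfl
        have h2 : (a ∈ cons S f s) ↔ (a ∈ cons (S ∩ T) f s) := by
          cases s with
          | root =>
            show a ∈ S ↔ a ∈ S ∩ T
            rw [mem_inter]
            have : a ∈ T := mem_insert_self _ _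
            tauto
          | sub j t => exact Iff.rfl
        show _ = F (cons ∅ f) * (if a ∈ cons (S ∩ T) f s then 1 else 0)
        rw [h1]
        simp only [h2]
      let g : Finset (Fin (p ^ m + κ)) → K := fun S =>
        ∑ f : Fin (p ^ m + κ) → Cfg (p ^ m + κ) L,
          (∏ j, wt K (p ^ m) L (decide (j ∈ S)) (f j)) * Φ S f
      have hg : ∀ S, g S = g (S ∩ T) := by
        intro S
        have h1 : ∀ f, Φ (S ∩ T) f = Φ S f := by
          intro f
          show F (cons ∅ f) * (if a ∈ cons (S ∩ T ∩ T) f s then 1 else 0) =
            F (cons ∅ f) * (if a ∈ cons (S ∩ T) f s then 1 else 0)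
          rw [inter_assoc, inter_self]
        show ∑ f : Fin (p ^ m + κ) → Cfg (p ^ m + κ) L,
          (∏ j, wt K (p ^ m) L (decide (j ∈ S)) (f j)) * Φ S f =
          ∑ f : Fin (p ^ m + κ) → Cfg (p ^ m + κ) L,
          (∏ j, wt K (p ^ m) L (decide (j ∈ S ∩ T)) (f j)) * Φ (S ∩ T) f
        simp only [h1]
        refine sum_change (univ \ T) _ _ (Φ S) (fun j => sum_wt hκ L _) (fun j => sum_wt hκ L _)
          ?_ ?_
        · intro j hj
          have hj' : j ∈ T := by simpa using hj
          have : (j ∈ S ∩ T) ↔ (j ∈ S) := by
            rw [mem_inter]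
            tauto
          simp only [this]
        · intro j hj f x
          have hj' : j ∉ T := by simpa using hj
          have h2 : ∀ t : Nd (p ^ m + κ) L, sub j t ∉ U := by
            intro t ht
            exact hj' (mem_insert_of_mem (mem_image.2 ⟨_, ht, rfl⟩))
          show F (cons ∅ (Function.update f j x)) *
              (if a ∈ cons (S ∩ T) (Function.update f j x) s then 1 else 0) =
            F (cons ∅ f) * (if a ∈ cons (S ∩ T) f s then 1 else 0)
          have h3 : F (cons ∅ (Function.update f j x)) = F (cons ∅ f) := by
            apply hF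
            intro t ht
            cases t with
            | root => rfl
            | sub i t =>
              show Function.update f j x i t = f i t
              rw [Function.update_of_ne]
              rintro rfl
              exact h2 t ht
          have h4 : cons (S ∩ T) (Function.update f j x) s = cons (S ∩ T) f s := by
            cases s with
            | root => rfl
            | sub i t =>
              show Function.update f j x i t = f i t
              rw [Function.update_of_ne]
              rintro rfl
              exact hj' (mem_insert_self _ _)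
          rw [h3, h4]
      have h5 : ∑ S : Finset (Fin (p ^ m + κ)), ∑ f : Fin (p ^ m + κ) → Cfg (p ^ m + κ) L,
          (if S.card = p ^ m then (1 : K) else 0) *
            (∏ j, wt K (p ^ m) L (decide (j ∈ S)) (f j)) *
            (F (cons S f) * (if a ∈ cons S f s then 1 else 0)) =
          ∑ S ∈ powersetCard (p ^ m) univ, g S := by
        have h6 : ∀ S : Finset (Fin (p ^ m + κ)), ∑ f : Fin (p ^ m + κ) → Cfg (p ^ m + κ) L,
            (if S.card = p ^ m then (1 : K) else 0) *
            (∏ j, wt K (p ^ m) L (decide (j ∈ S)) (f j)) *
            (F (cons S f) * (if a ∈ cons S f s then 1 else 0)) =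
            if S.card = p ^ m then g S else 0 := by
          intro S
          simp only [hΦ]
          by_cases hS : S.card = p ^ m
          · simp only [if_pos hS, one_mul]
            rfl
          · simp only [if_neg hS, zero_mul, Finset.sum_const_zero]
        rw [Finset.sum_congr rfl fun S _ => h6 S, ← Finset.sum_filter]
        refine Finset.sum_congr ?_ fun _ _ => rfl
        ext S
        rw [mem_filter, mem_powersetCard]
        simp
      rw [h5, sum_powersetCard m κ hκ g T hT hg]
      refine Finset.sum_eq_zero fun f _ => ?_
      by_cases hz : ∏ j, wt K (p ^ m) L (decide (j ∈ (∅ : Finset (Fin (p ^ m + κ))))) (f j) = 0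
      · rw [hz, zero_mul]
      · have hz' := Finset.prod_ne_zero_iff.1 hz
        have h7 : ∀ j t, f j t = ∅ := by
          intro j t
          have h8 := hz' j (mem_univ j)
          exact wt_false K _ (f j) (by simpa using h8) t
        have h9 : a ∉ cons (∅ ∩ T) f s := by
          cases s with
          | root =>
            show a ∉ ∅ ∩ T
            simp
          | sub j t =>
            show a ∉ f j t
            rw [h7]
            exact notMem_empty a
        show _ * (F (cons ∅ f) * (if a ∈ cons (∅ ∩ T) f s then 1 else 0)) = 0
        rw [if_neg h9, mul_zero, mul_zero]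

/-- Few nodes cannot see the valid configurations with a chosen child at a leaf. -/
theorem sum_zero' (hκ : κ < p ^ m) {L : ℕ} (b : Bool) (U : Finset (Nd (p ^ m + κ) L))
    (hU : U.card + 1 ≤ κ) (hUL : U.card < L)
    (C : Finset (Nd (p ^ m + κ) L × Fin (p ^ m + κ))) (hC : ∀ c ∈ C, c.1 ∈ U ∧ lev c.1 = 1)
    (F : Cfg (p ^ m + κ) L → K) (hF : Dep U F)
    (h0 : ∀ σ, wt K (p ^ m) L b σ ≠ 0 → (∀ c ∈ C, c.2 ∉ σ c.1) → F σ = 0) :
    ∑ σ, wt K (p ^ m) L b σ * F σ = 0 := by
  classical
  induction C using Finset.induction_on generalizing F with
  | empty =>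
    refine Finset.sum_eq_zero fun σ _ => ?_
    by_cases h : wt K (p ^ m) L b σ = 0
    · rw [h, zero_mul]
    · rw [h0 σ h (by simp), mul_zero]
  | insert c C hc ih =>
    have h1 := ih (fun c hc => hC c (mem_insert_of_mem hc))
      (fun σ => F σ * (if c.2 ∈ σ c.1 then 0 else 1)) ?_ ?_
    · have h2 := sum_zero hκ L b U c.1 c.2 F hF ?_ hU
      · have h3 : ∑ σ, wt K (p ^ m) L b σ * F σ =
            (∑ σ, wt K (p ^ m) L b σ * (F σ * (if c.2 ∈ σ c.1 then 1 else 0))) +
            ∑ σ, wt K (p ^ m) L b σ * (F σ * (if c.2 ∈ σ c.1 then 0 else 1)) := by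
          rw [← Finset.sum_add_distrib]
          refine Finset.sum_congr rfl fun σ _ => ?_
          rw [← mul_add, ← mul_add]
          by_cases h : c.2 ∈ σ c.1
          · simp [h]
          · simp [h]
        rw [h3, h2, h1, add_zero]
      · by_contra h3
        push Not at h3
        have h4 : anc c.1 ⊆ U := fun t ht => h3 t ht
        have h5 := card_le_card h4
        have h6 := lev_anc c.1
        rw [(hC c (mem_insert_self _ _)).2] at h6
        omega
    · intro σ σ' h
      show F σ * _ = F σ' * _
      rw [hF σ σ' h, h c.1 (hC c (mem_insert_self _ _)).1]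
    · intro σ hσ h
      by_cases h' : c.2 ∈ σ c.1
      · rw [if_pos h', mul_zero]
      · rw [if_neg h', mul_one]
        refine h0 σ hσ fun c' hc' => ?_
        rw [mem_insert] at hc'
        rcases hc' with rfl | hc'
        · exact h'
        · exact h c' hc'

end main

end Pool.Agent.K4H90.AllF
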