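import Pool.Agent.TH658.Dg.Im

/-!
# Invertible matrices in the characteristic of the local symmetries

Let `X` be a finite abelian `p`-group which acts on the vertices, and let `w i` be elements of a
field of characteristic `p` with sum `1`. The linear combination with coefficients `w i` of the
permutation matrices of elements `M i` of `X` is invertible, because its power with exponent `|X|`
is the identity matrix. If the combination looks locally as if all `M i` were solutions of the
system, this matrix transforms the class matrices of the one graph into those of the other graph.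
-/

set_option autoImplicit false
set_option linter.unusedSectionVars false

namespace Pool.Agent.K4H90.AllF

open Pool.Agent.TH658.Sos Pool.Agent.TH658.Dg Finset Matrix

section perm

variable {X Y K : Type} [AddCommGroup X] [Fintype X] [Fintype Y] [DecidableEq Y] [Field K]
  (g : X → Y → Y)

/-- The permutation matrix of an element of `X`. -/
def pm (h : X) : Matrix Y Y K := fun x y => if g h x = y then 1 else 0

variable {g}

theorem pm_zero (g0 : ∀ y, g 0 y = y) : (pm g 0 : Matrix Y Y K) = 1 := by
  ext x y
  unfold pm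
  rw [g0, Matrix.one_apply]

theorem pm_mul (gadd : ∀ s t y, g (s + t) y = g s (g t y)) (s t : X) :
    (pm g (s + t) : Matrix Y Y K) = pm g s * pm g t := by
  ext x y
  rw [Matrix.mul_apply]
  unfold pm
  simp only [ite_mul, one_mul, zero_mul]
  rw [Finset.sum_ite_eq]
  simp only [Finset.mem_univ, if_true]
  rw [add_comm, gadd]

/-- The representation of the group algebra. -/
noncomputable def rep (g0 : ∀ y, g 0 y = y) (gadd : ∀ s t y, g (s + t) y = g s (g t y)) :
    AddMonoidAlgebra K X →ₐ[K] Matrix Y Y K :=
  AddMonoidAlgebra.lift K (Matrix Y Y K) X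
    { toFun := fun h => pm g (Multiplicative.toAdd h)
      map_one' := pm_zero g0
      map_mul' := fun _ _ => pm_mul gadd _ _ }

theorem rep_single (g0 : ∀ y, g 0 y = y) (gadd : ∀ s t y, g (s + t) y = g s (g t y)) (h : X)
    (c : K) : rep (K := K) g0 gadd (AddMonoidAlgebra.single h c) = c • pm g h := by
  unfold rep
  rw [AddMonoidAlgebra.lift_single]
  rfl

/-- A linear combination of permutation matrices with coefficient sum `1` is invertible. -/
theorem exists_inv {p n : ℕ} [Fact p.Prime] [CharP K p] (hX : Fintype.card X = p ^ n)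
    (g0 : ∀ y, g 0 y = y) (gadd : ∀ s t y, g (s + t) y = g s (g t y)) {ι : Type} [Fintype ι]
    (w : ι → K) (M : ι → X) (hw : ∑ i, w i = 1) :
    ∃ Q : Matrix Y Y K, (∑ i, w i • pm g (M i)) * Q = 1 ∧ Q * (∑ i, w i • pm g (M i)) = 1 := by
  have : CharP (AddMonoidAlgebra K X) p :=
    charP_of_injective_algebraMap (FaithfulSMul.algebraMap_injective K (AddMonoidAlgebra K X)) p
  let μ : AddMonoidAlgebra K X := ∑ i, AddMonoidAlgebra.single (M i) (w i)
  have h1 : μ ^ (p ^ n) = 1 := by
    have h2 : μ ^ (p ^ n) = ∑ i, (AddMonoidAlgebra.single (M i) (w i)) ^ (p ^ n) :=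
      sum_pow_char_pow p n _ _
    rw [h2]
    have h3 : ∀ i, (AddMonoidAlgebra.single (M i) (w i) : AddMonoidAlgebra K X) ^ (p ^ n) =
        AddMonoidAlgebra.single 0 (w i ^ (p ^ n)) := by
      intro i
      rw [AddMonoidAlgebra.single_pow]
      congr 1
      rw [← hX]
      exact card_nsmul_eq_zero
    rw [Finset.sum_congr rfl fun i _ => h3 i]
    have h4 : ∑ i, (w i) ^ (p ^ n) = 1 := by
      rw [← sum_pow_char_pow p n, hw, one_pow]
    have h5 : (∑ i, AddMonoidAlgebra.single 0 (w i ^ (p ^ n)) : AddMonoidAlgebra K X) =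
        AddMonoidAlgebra.single 0 (∑ i, (w i) ^ (p ^ n)) := by
      exact (map_sum (AddMonoidAlgebra.singleAddHom (R := K) (0 : X)) _ _).symm
    rw [h5, h4]
    rfl
  have h6 : rep (K := K) g0 gadd μ = ∑ i, w i • pm g (M i) := by
    show rep (K := K) g0 gadd (∑ i, AddMonoidAlgebra.single (M i) (w i)) = _
    rw [map_sum]
    exact Finset.sum_congr rfl fun i _ => rep_single g0 gadd _ _
  have hn : 0 < p ^ n := pow_pos (Fact.out : p.Prime).pos n
  have h7 : (∑ i, w i • pm g (M i) : Matrix Y Y K) ^ (p ^ n) = 1 := by
    rw [← h6, ← map_pow, h1, map_one]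
  obtain ⟨q, hq⟩ := Nat.exists_eq_succ_of_ne_zero hn.ne'
  rw [hq] at h7
  refine ⟨(∑ i, w i • pm g (M i)) ^ q, ?_, ?_⟩
  · rw [← pow_succ', h7]
  · rw [← pow_succ, h7]

end perm

/-- There are elements `M i` of `X` and coefficients `w i` with sum `1` such that the functions on
`X` that are seen on a level `W` of size at most `r` above `W₀`, and that vanish at the
solutions of level `W` which look like `M₀` on the level `W₀`, have the weighted sum `0`. -/
def HasPM (K : Type) [Field K] {X L : Type} [AddCommGroup X] [LE L] (N : L → AddSubgroup X)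
    (Sol : L → Set X) (size : L → ℕ) (W₀ : L) (M₀ : X) (r : ℕ) : Prop :=
  ∃ (ι : Type) (_ : Fintype ι) (w : ι → K) (M : ι → X), ∑ i, w i = 1 ∧
    ∀ W, W₀ ≤ W → size W ≤ r → ∀ F : X → K, (∀ x, ∀ n ∈ N W, F (x + n) = F x) →
      (∀ x ∈ Sol W, x - M₀ ∈ N W₀ → F x = 0) → ∑ i, w i * F (M i) = 0

section

variable {X L : Type} [AddCommGroup X] [SemilatticeSup L] [OrderBot L] {S : Sys X L}
  {V V' : Type} {G : V → V → Prop} {H : V' → V' → Prop} {A : Act S G H}
  [Fintype X] [Fintype V] [Fintype V']

open Act

/-- One invertible matrix for all pairs of functions which correspond to each other locally, in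
characteristic `p`. -/
theorem exists_similar_p [DecidableEq V] [DecidableEq V'] (hA : A.Torsor) {K : Type} [Field K]
    {p n : ℕ} [Fact p.Prime] [CharP K p] (hX : Fintype.card X = p ^ n) {k m : ℕ}
    (ι : Fin m ⊕ Fin m ↪ Fin k) (u : Fin k → V) {M₀ : X}
    (hPM : HasPM K S.N S.Sol S.size (lvT A.lv u) M₀ (A.c * (2 * k))) :
    ∃ (P : Matrix (Fin m → V) (Fin m → V') K) (Q : Matrix (Fin m → V') (Fin m → V) K),
      P * Q = 1 ∧ Q * P = 1 ∧ ∀ (α : (Fin k → V) → K) (β : (Fin k → V') → K),
      (∀ w, ∀ M ∈ S.Sol (lvT A.lv w), α w = β fun a => A.b M (w a)) →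
      (Matrix.of fun x y => α (subst ι u x y)) * P =
        P * (Matrix.of fun x y => β (subst ι (fun a => A.b M₀ (u a)) x y)) := by
  classical
  have hm : 2 * m ≤ k := by
    have := Fintype.card_le_of_embedding ι
    rw [Fintype.card_sum, Fintype.card_fin, Fintype.card_fin] at this
    omega
  obtain ⟨I, iI, w, M, hw, hPM⟩ := hPM
  let gg : X → (Fin m → V) → (Fin m → V) := fun t y a => A.g t (y a)
  have g0 : ∀ y, gg 0 y = y := fun y => funext fun a => g_zero _
  have gadd : ∀ s t y, gg (s + t) y = gg s (gg t y) := fun s t y => funext fun a => hA.g_add s t _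
  obtain ⟨Q, hPQ, hQP⟩ := exists_inv (K := K) hX g0 gadd w M hw
  set P : Matrix (Fin m → V) (Fin m → V) K := ∑ i, w i • pm gg (M i) with hP
  let e : (Fin m → V) ≃ (Fin m → V') := Equiv.arrowCongr (Equiv.refl _) (A.b 0)
  have he : ∀ y, e y = fun a => A.b 0 (y a) := fun y => rfl
  have heg : ∀ t y y', (gg t y = e.symm y') ↔ ((fun a => A.b t (y a)) = y') := by
    intro t y y'
    rw [← e.apply_eq_iff_eq, Equiv.apply_symm_apply, he]
    have : (fun a => A.b 0 (gg t y a)) = fun a => A.b t (y a) := by
      funext a
      show A.b 0 ((A.b 0).symm (A.b t (y a))) = _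
      rw [Equiv.apply_symm_apply]
    rw [this]
  refine ⟨P.submatrix id e.symm, Q.submatrix e.symm id, ?_, ?_, ?_⟩
  · rw [Matrix.submatrix_mul_equiv, hPQ]
    exact Matrix.submatrix_one_equiv (Equiv.refl _)
  · rw [← Matrix.submatrix_mul Q P e.symm id e.symm Function.bijective_id, hQP]
    exact Matrix.submatrix_one_equiv e.symm
  · intro α β hαβ
    ext x y'
    have hPe : ∀ x y', P.submatrix id e.symm x y' =
        ∑ i, w i * (if (fun a => A.b (M i) (x a)) = y' then 1 else 0) := by
      intro x y'
      rw [Matrix.submatrix_apply, hP, Matrix.sum_apply]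
      refine Finset.sum_congr rfl fun i _ => ?_
      rw [Matrix.smul_apply, smul_eq_mul]
      congr 1
      unfold pm
      simp only [id, heg]
    rw [Matrix.mul_apply, Matrix.mul_apply]
    simp only [hPe, Matrix.of_apply]
    have hl : ∑ j, α (subst ι u x j) * ∑ i, w i * (if (fun a => A.b (M i) (j a)) = y' then
        (1 : K) else 0) = ∑ i, w i * α (subst ι u x fun a => (A.b (M i)).symm (y' a)) := by
      simp only [Finset.mul_sum]
      rw [Finset.sum_comm]
      refine Finset.sum_congr rfl fun i _ => ?_
      have h1 : ∀ j : Fin m → V, ((fun a => A.b (M i) (j a)) = y') ↔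
          (j = fun a => (A.b (M i)).symm (y' a)) := by
        intro j
        constructor
        · rintro rfl
          funext a
          rw [Equiv.symm_apply_apply]
        · rintro rfl
          funext a
          rw [Equiv.apply_symm_apply]
      simp only [h1, mul_ite, mul_one, mul_zero]
      rw [Finset.sum_ite_eq']
      simp only [Finset.mem_univ, if_true]
      ring
    have hr : ∑ j, (∑ i, w i * (if (fun a => A.b (M i) (x a)) = j then (1 : K) else 0)) *
        β (subst ι (fun a => A.b M₀ (u a)) j y') =
        ∑ i, w i * β (subst ι (fun a => A.b M₀ (u a)) (fun a => A.b (M i) (x a)) y') := by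
      simp only [Finset.sum_mul]
      rw [Finset.sum_comm]
      refine Finset.sum_congr rfl fun i _ => ?_
      simp only [mul_ite, mul_one, mul_zero, ite_mul, zero_mul]
      rw [Finset.sum_ite_eq]
      simp only [Finset.mem_univ, if_true]
    rw [hl, hr, ← sub_eq_zero, ← Finset.sum_sub_distrib]
    simp only [← mul_sub]
    let W : L := lvT A.lv u ⊔ lvT A.lv x ⊔ lvT A.lv' y'
    have hlv : ∀ t (a : Fin m), A.lv ((A.b t).symm (y' a)) = A.lv' (y' a) := by
      intro t a
      rw [← A.lev t, Equiv.apply_symm_apply]
    refine hPM W (le_sup_left.trans le_sup_left) ?_ (fun t =>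
      α (subst ι u x fun a => (A.b t).symm (y' a)) -
      β (subst ι (fun a => A.b M₀ (u a)) (fun a => A.b t (x a)) y')) ?_ ?_
    · have h1 := A.size_lvT u
      have h2 := A.size_lvT x
      have h3 : S.size (lvT A.lv' y') ≤ A.c * Fintype.card (Fin m) := by
        have h4 : lvT A.lv' y' = lvT A.lv (fun a => (A.b 0).symm (y' a)) :=
          (lvT_congr fun a => hlv 0 a).symm
        rw [h4]
        exact A.size_lvT _
      rw [Fintype.card_fin] at h1 h2 h3
      have h5 := S.size_sup (lvT A.lv u ⊔ lvT A.lv x) (lvT A.lv' y')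
      have h6 := S.size_sup (lvT A.lv u) (lvT A.lv x)
      have h7 : A.c * (2 * m) ≤ A.c * k := Nat.mul_le_mul_left _ hm
      have h8 : A.c * (2 * m) = A.c * m + A.c * m := by ring
      have h9 : A.c * (2 * k) = A.c * k + A.c * k := by ring
      show S.size (lvT A.lv u ⊔ lvT A.lv x ⊔ lvT A.lv' y') ≤ A.c * (2 * k)
      omega
    · intro t s hs
      have h1 : (fun a => A.b (t + s) (x a)) = fun a => A.b t (x a) := by
        funext a
        exact A.inv t s _ (S.N_anti _ _ ((lv_le_lvT x a).trans
          (le_sup_right.trans le_sup_left)) hs)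
      have h2 : (fun a => (A.b (t + s)).symm (y' a)) = fun a => (A.b t).symm (y' a) := by
        funext a
        rw [Equiv.symm_apply_eq]
        have h3 := A.inv t s ((A.b t).symm (y' a)) (by
          rw [hlv]
          exact S.N_anti _ _ ((lv_le_lvT (lv := A.lv') y' a).trans le_sup_right) hs)
        rw [h3, Equiv.apply_symm_apply]
      show α _ - β _ = α _ - β _
      rw [h1, h2]
    · intro t ht htM
      have hle : lvT A.lv (subst ι u x fun a => (A.b t).symm (y' a)) ≤ W := by
        refine (lvT_subst A.lv ι u x _).trans ?_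
        have h3 : lvT A.lv (fun a => (A.b t).symm (y' a)) = lvT A.lv' y' :=
          lvT_congr fun a => hlv t a
        rw [h3]
      have h1 := hαβ _ t (S.Sol_anti _ _ hle ht)
      show α _ - β _ = 0
      rw [h1, comp_subst (fun v => A.b t v)]
      have h2 : (fun a => A.b t (u a)) = fun a => A.b M₀ (u a) := by
        funext a
        have h3 := A.inv M₀ (t - M₀) (u a) (S.N_anti _ _ (lv_le_lvT u a) htM)
        rw [add_sub_cancel] at h3
        exact h3
      have h3 : (fun a => A.b t ((A.b t).symm (y' a))) = y' := by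
        funext a
        rw [Equiv.apply_symm_apply]
      rw [h2, h3, sub_self]

end

end Pool.Agent.K4H90.AllF
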