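import Pool.Agent.K4H90.AllF.Core

/-!
# The invertible-map test over all fields at the same time
-/

set_option autoImplicit false
set_option linter.unusedSectionVars false

namespace Pool.Agent.K4H90.AllF

open Pool.Agent.TH658.Sos Pool.Agent.TH658.Dg Finset Matrix

open Act

variable {X L : Type} [AddCommGroup X] [SemilatticeSup L] [OrderBot L] {S : Sys X L}
  {V V' : Type} {G : V → V → Prop} {H : V' → V' → Prop} {A : Act S G H}
  [Fintype X] [Fintype V] [Fintype V']

/-- Similarity of the class matrices over all fields. -/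
theorem compatAll (hA : A.Torsor) {p n k : ℕ} [Fact p.Prime] (hX : Fintype.card X = p ^ n)
    (hsz : 4 * (A.c * k) ≤ S.K)
    (hPM : ∀ (K : Type) [Field K] [CharP K p] (W₀ : L) (M₀ : X), S.size W₀ ≤ A.c * k →
      M₀ ∈ S.Sol W₀ → HasPM K S.N S.Sol S.size W₀ M₀ (A.c * (2 * k)))
    {T : Type} (R : T → T → Prop) (hR : Equivalence R)
    (i : (Fin k → V) → T) (j : (Fin k → V') → T)
    (h1 : ∀ u v, R (i u) (j v) → ∃ M ∈ S.Sol (lvT A.lv u), v = fun a => A.b M (u a))
    (h2 : ∀ u, ∀ M ∈ S.Sol (lvT A.lv u), R (i u) (j fun a => A.b M (u a))) :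
    Compat 1 R G H i j := by
  intro u v huv
  obtain ⟨M₀, hM₀, rfl⟩ := h1 u v huv
  refine ⟨fun a b => ⟨(A.b M₀).injective.eq_iff.symm, ?_⟩, ?_⟩
  · exact A.iso _ _ M₀ (S.Sol_anti _ _ (sup_le (lv_le_lvT u a) (lv_le_lvT u b)) hM₀)
  intro K _ _ m ι
  classical
  have key : ∃ (P : Matrix (Fin m → V) (Fin m → V') (AlgebraicClosure K))
      (Q : Matrix (Fin m → V') (Fin m → V) (AlgebraicClosure K)),
      P * Q = 1 ∧ Q * P = 1 ∧ ∀ (α : (Fin k → V) → AlgebraicClosure K)
        (β : (Fin k → V') → AlgebraicClosure K),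
      (∀ w, ∀ M ∈ S.Sol (lvT A.lv w), α w = β fun a => A.b M (w a)) →
      (Matrix.of fun x y => α (subst ι u x y)) * P =
        P * (Matrix.of fun x y => β (subst ι (fun a => A.b M₀ (u a)) x y)) := by
    by_cases hp : (p : AlgebraicClosure K) = 0
    · have : CharP (AlgebraicClosure K) p := by
        obtain ⟨r, hr⟩ := CharP.exists (AlgebraicClosure K)
        have h3 : r ∣ p := (CharP.cast_eq_zero_iff (AlgebraicClosure K) r p).1 hp
        have h4 : r ≠ 1 := CharP.char_ne_one (AlgebraicClosure K) r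
        rcases (Nat.dvd_prime (Fact.out : p.Prime)).1 h3 with h5 | h5
        · exact absurd h5 h4
        · rwa [h5] at hr
      refine exists_similar_p hA hX ι u (hPM _ _ _ ?_ hM₀)
      have h5 := A.size_lvT u
      rwa [Fintype.card_fin] at h5
    · refine exists_similar hA ?_ hsz ι u hM₀
      rw [hX, Nat.cast_pow]
      exact pow_ne_zero _ hp
  obtain ⟨P, Q, hPQ, hQP, h3⟩ := key
  refine ⟨P, Q, ?_, ?_, fun c => ?_⟩
  · convert hPQ
  · convert hQP
  · refine h3 (fun w => if R c (i w) then 1 else 0) (fun w => if R c (j w) then 1 else 0)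
      fun w M hM => ?_
    have h4 := h2 w M hM
    have h5 : R c (i w) ↔ R c (j fun a => A.b M (w a)) :=
      ⟨fun h => hR.trans h h4, fun h => hR.trans h (hR.symm h4)⟩
    simp only [h5]

/-- The theorem on invertible-map equivalence over all fields. -/
theorem imEquivAll (hA : A.Torsor) {p n k : ℕ} [Fact p.Prime] (hX : Fintype.card X = p ^ n)
    (hsz : 4 * (A.c * k) ≤ S.K) (hc : A.c + A.c ≤ S.K)
    (h1' : ∀ (K : Type) [Field K] [CharP K p] (W₀ : L) (M₀ : X), S.size W₀ ≤ A.c * k →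
      M₀ ∈ S.Sol W₀ → HasPM K S.N S.Sol S.size W₀ M₀ (A.c * (2 * k)))
    (h0 : ∀ (K : Type) [Field K] [CharP K p] (W₀ : L) (M₀ : X), S.size W₀ ≤ A.c * k →
      M₀ ∈ S.D W₀ → HasPM K S.N (fun W => (S.D W : Set X)) S.size W₀ M₀ (A.c * (2 * k))) :
    IMEquiv 1 k G H := by
  let R : (Fin k → V) ⊕ (Fin k → V') → (Fin k → V) ⊕ (Fin k → V') → Prop :=
    fun a b => ∀ w, A.Reach w a ↔ A.Reach w b
  have hR : Equivalence R := ⟨fun _ _ => Iff.rfl, fun h w => (h w).symm,
    fun h1 h2 w => (h1 w).trans (h2 w)⟩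
  have lb : ∀ (M : X) (w : Fin k → V), lvT A.lv' (fun a => A.b M (w a)) = lvT A.lv w :=
    fun M w => lvT_congr fun a => A.lev M _
  have lg : ∀ (M : X) (w : Fin k → V), lvT A.lv (fun a => A.g M (w a)) = lvT A.lv w :=
    fun M w => lvT_congr fun a => lv_g M _
  have add_mem : ∀ W, ∀ M ∈ S.Sol W, ∀ h ∈ S.D W, M + h ∈ S.Sol W := by
    intro W M hM h hh
    rw [S.sol_iff _ M _ hM, add_sub_cancel_left]
    exact hh
  have sub_mem : ∀ W, ∀ M ∈ S.Sol W, ∀ M' ∈ S.Sol W, M' - M ∈ S.D W := fun W M hM M' hM' =>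
    (S.sol_iff _ M _ hM).1 hM'
  -- elements related by the maps are equivalent
  have r1 : ∀ u, ∀ h ∈ S.D (lvT A.lv u), R (Sum.inl u) (Sum.inl fun a => A.g h (u a)) := by
    intro u h hh w
    constructor
    · rintro ⟨h', hh', rfl⟩
      rw [lg] at hh
      exact ⟨h + h', (S.D _).add_mem hh hh', funext fun a => (hA.g_add _ _ _).symm⟩
    · rintro ⟨h', hh', he⟩
      have e1 : lvT A.lv u = lvT A.lv w := by
        rw [← lg h u, he, lg]
      rw [e1] at hh
      refine ⟨-h + h', (S.D _).add_mem ((S.D _).neg_mem hh) hh', funext fun a => ?_⟩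
      have e2 := congrFun he a
      have e3 : A.g (-h) (A.g h (u a)) = A.g (-h) (A.g h' (w a)) := congrArg _ e2
      rw [← hA.g_add, ← hA.g_add, neg_add_cancel, g_zero] at e3
      exact e3
  have r2 : ∀ u, ∀ M ∈ S.Sol (lvT A.lv u), R (Sum.inl u) (Sum.inr fun a => A.b M (u a)) := by
    intro u M hM w
    constructor
    · rintro ⟨h', hh', rfl⟩
      rw [lg] at hM
      exact ⟨M + h', add_mem _ M hM h' hh', funext fun a => (hA.b_add _ _ _).symm⟩
    · rintro ⟨M', hM', he⟩
      have e1 : lvT A.lv u = lvT A.lv w := by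
        rw [← lb M u, he, lb]
      rw [e1] at hM
      refine ⟨M' - M, sub_mem _ M hM M' hM', funext fun a => ?_⟩
      have e2 : A.b M (u a) = A.b M' (w a) := congrFun he a
      have e3 : M' = M + (M' - M) := by abel
      rw [e3, hA.b_add] at e2
      exact (A.b M).injective e2
  have lsymm : ∀ v : Fin k → V', lvT A.lv (fun a => (A.b 0).symm (v a)) = lvT A.lv' v :=
    fun v => lvT_congr fun a => lv_symm _
  have r3 : ∀ v, ∀ h ∈ S.D (lvT A.lv' v),
      R (Sum.inr v) (Sum.inr fun a => A.b h ((A.b 0).symm (v a))) := by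
    intro v h hh w
    constructor
    · rintro ⟨M, hM, rfl⟩
      rw [lb] at hh
      refine ⟨M + h, add_mem _ M hM h hh, funext fun a => ?_⟩
      show A.b h ((A.b 0).symm (A.b M (w a))) = A.b (M + h) (w a)
      have : (A.b 0).symm (A.b M (w a)) = A.g M (w a) := rfl
      rw [this, ← hA.b_add, add_comm]
    · rintro ⟨M, hM, he⟩
      have e1 : lvT A.lv' v = lvT A.lv w := by
        rw [← lsymm v, ← lb h, he, lb]
      rw [e1] at hh
      refine ⟨M + -h, add_mem _ M hM _ ((S.D _).neg_mem hh), funext fun a => ?_⟩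
      have e2 : A.b h ((A.b 0).symm (v a)) = A.b M (w a) := congrFun he a
      have e3 : M = h + (M + -h) := by abel
      rw [e3, hA.b_add] at e2
      have e4 := (A.b h).injective e2
      rw [Equiv.symm_apply_eq] at e4
      rw [e4, ← hA.b_add, zero_add]
  have hszT : ∀ w : Fin k → V, S.size (lvT A.lv w) ≤ S.K := by
    intro w
    have := A.size_lvT w
    rw [Fintype.card_fin] at this
    omega
  refine ⟨R, hR, ?_, ?_, ?_, ?_⟩
  · refine compatAll (A := A.left hA hc) (left_torsor hA hc) hX hsz (fun K _ _ W₀ M₀ h1 h2 => h0 K W₀ M₀ h1 h2) R hR Sum.inl Sum.inl ?_ ?_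
    · intro u v huv
      exact (huv u).1 ⟨0, (S.D _).zero_mem, funext fun a => (g_zero _).symm⟩
    · intro u M hM
      exact r1 u M hM
  · refine compatAll hA hX hsz h1' R hR Sum.inl Sum.inr ?_ ?_
    · intro u v huv
      exact (huv u).1 ⟨0, (S.D _).zero_mem, funext fun a => (g_zero _).symm⟩
    · intro u M hM
      exact r2 u M hM
  · refine compatAll (A := A.right hA hc) (right_torsor hA hc) hX hsz (fun K _ _ W₀ M₀ h1 h2 => h0 K W₀ M₀ h1 h2) R hR Sum.inr Sum.inr ?_ ?_
    · intro v v' hvv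
      obtain ⟨M₀, hM₀⟩ := S.nonempty (lvT A.lv' v) (by
        rw [← lsymm v]
        exact hszT _)
      let w : Fin k → V := fun a => (A.b M₀).symm (v a)
      have hv : v = fun a => A.b M₀ (w a) := funext fun a => ((A.b M₀).apply_symm_apply _).symm
      have hl : lvT A.lv' v = lvT A.lv w := by
        rw [hv, lb]
      rw [hl] at hM₀
      obtain ⟨M, hM, he⟩ := (hvv w).1 ⟨M₀, hM₀, hv⟩
      refine ⟨M - M₀, ?_, ?_⟩
      · show M - M₀ ∈ S.D (lvT A.lv' v)
        rw [hl]
        exact sub_mem _ M₀ hM₀ M hM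
      · rw [he]
        funext a
        show A.b M (w a) = A.b (M - M₀) ((A.b 0).symm (v a))
        have e1 : (A.b 0).symm (v a) = A.g M₀ (w a) := by
          rw [hv]
          rfl
        rw [e1, ← hA.b_add, sub_add_cancel]
    · intro v M hM
      exact r3 v M hM
  · refine ⟨⟨fun u a => A.b (S.pt (lvT A.lv u)) (u a),
      fun v a => (A.b (S.pt (lvT A.lv' v))).symm (v a), ?_, ?_⟩, ?_⟩
    · intro u
      funext a
      show (A.b (S.pt (lvT A.lv' fun a => A.b (S.pt (lvT A.lv u)) (u a)))).symm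
        (A.b (S.pt (lvT A.lv u)) (u a)) = u a
      rw [lb, Equiv.symm_apply_apply]
    · intro v
      funext a
      show A.b (S.pt (lvT A.lv fun a => (A.b (S.pt (lvT A.lv' v))).symm (v a)))
        ((A.b (S.pt (lvT A.lv' v))).symm (v a)) = v a
      have h1 : lvT A.lv (fun a => (A.b (S.pt (lvT A.lv' v))).symm (v a)) = lvT A.lv' v := by
        refine lvT_congr fun a => ?_
        rw [← A.lev (S.pt (lvT A.lv' v)), Equiv.apply_symm_apply]
      rw [h1, Equiv.apply_symm_apply]
    · intro u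
      exact r2 u _ (S.pt_mem (S.nonempty _ (hszT u)))


end Pool.Agent.K4H90.AllF
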