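import Pool.Agent.K4H90.AllF.Size
import Pool.Agent.K4H90.AllF.ImEq

/-!
# Tournaments and the invertible-map test over all fields
-/

set_option autoImplicit false
set_option linter.unusedSectionVars false

namespace Pool.Agent.K4H90.AllF

open Finset Pool.Agent.TH658.Dg Pool.Agent.TH658.Sos Nd

theorem no_two {n j : ℕ} (h : n = 2 * j + 1) (a : ZMod n) (ha : a + a = 0) : a = 0 := by
  have h1 : ((2 * j + 1 : ℕ) : ZMod n) = 0 := by
    rw [← h]
    exact ZMod.natCast_self n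
  push_cast at h1
  linear_combination a * h1 - (j : ZMod n) * ha

section

variable {D L R : ℕ} {A : Type} [CommRing A] [Fintype A]

/-- The local isomorphisms of the tournaments. -/
def act (K : ℕ) (hD : K < D) (hR : K < R) (τ : Qn D (L + 1) R → Ed D (L + 1) R → A) (ℓ : ℕ)
    [NeZero ℓ] : Act (sys K hD hR τ)
      (arcV (ℓ := ℓ) src tgt (0 : Qn D (L + 1) R → Ed D (L + 1) R → A))
      (arcV (ℓ := ℓ) src tgt τ) where
  b := bb src tgt
  lv := lvl src tgt
  lv' := lvl src tgt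
  c := 1
  inv M n u hn := by
    rcases u with x | x
    · show Sum.inl _ = Sum.inl _
      congr 1
      refine Subtype.ext (Prod.ext rfl ?_)
      show x.1.2 + (M.1 x.1.1 + n.1 x.1.1) = x.1.2 + M.1 x.1.1
      have h1 : n.1 x.1.1 = 0 := hn x.1.1 (Finset.mem_singleton_self _)
      rw [h1, add_zero]
    · rfl
  lev M u := by
    rcases u with x | x <;> rfl
  size u := by
    rcases u with x | x
    · exact (Finset.card_singleton x.1.1).le
    · exact Nat.zero_le 1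
  iso u u' M hM := arcV_bb src tgt τ hM

theorem act_torsor (K : ℕ) (hD : K < D) (hR : K < R) (τ : Qn D (L + 1) R → Ed D (L + 1) R → A)
    (ℓ : ℕ) [NeZero ℓ] : (act K hD hR τ ℓ).Torsor := by
  have h0 : ∀ x : VV A (src (D := D) (L := L + 1) (R := R)) tgt ℓ, bb src tgt 0 x = x := by
    intro x
    rcases x with x | x
    · show Sum.inl _ = Sum.inl _
      congr 1
      refine Subtype.ext (Prod.ext rfl ?_)
      show x.1.2 + 0 = x.1.2
      rw [add_zero]
    · rfl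
  intro M h u
  show bb src tgt (M + h) u = bb src tgt M ((bb src tgt 0).symm (bb src tgt h u))
  have h1 : (bb src tgt 0).symm (bb src tgt h u) = bb src tgt h u := by
    rw [Equiv.symm_apply_eq, h0]
  rw [h1]
  rcases u with x | x
  · show Sum.inl _ = Sum.inl _
    congr 1
    refine Subtype.ext (Prod.ext rfl ?_)
    show x.1.2 + (M.1 x.1.1 + h.1 x.1.1) = x.1.2 + h.1 x.1.1 + M.1 x.1.1
    abel
  · rfl

end

/-- The tournaments. -/
theorem exists_tours (k : ℕ) (hk : 1 ≤ k) :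
    ∃ (V : Type) (_ : Fintype V) (T T' : V → V → Prop),
      Fintype.card V ≤ (k + 1) ^ (1530 * k ^ 2) ∧ IsTournament T ∧ IsTournament T' ∧
      (¬ ∃ φ : V ≃ V, ∀ x y, T x y ↔ T' (φ x) (φ y)) ∧ IMEquiv 1 k T T' := by
  have h3 : Fact (Nat.Prime 3) := ⟨Nat.prime_three⟩
  obtain ⟨K, hK⟩ : ∃ K, K = 4 * k + 2 := ⟨_, rfl⟩
  obtain ⟨m, hm, hm2⟩ : ∃ m, K + 1 < 3 ^ m ∧ 3 ^ m ≤ 3 * (K + 1) := by
    refine ⟨Nat.log 3 (K + 1) + 1, Nat.lt_pow_succ_log_self (by norm_num) _, ?_⟩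
    rw [pow_succ, mul_comm]
    exact Nat.mul_le_mul_left _ (Nat.pow_log_le_self 3 (by omega))
  let s : ℕ := m * (K + 1) + 1
  let A : Type := ZMod (3 ^ s)
  have : NeZero (3 ^ m + (K + 1)) := ⟨by omega⟩
  obtain ⟨j, hj⟩ : ∃ j, 3 ^ s = 2 * j + 1 := (Odd.pow (by decide : Odd 3))
  let v₀ : Qn (3 ^ m + (K + 1)) (K + 1) (K + 1) := .inl (0, root K)
  let e₀ : Ed (3 ^ m + (K + 1)) (K + 1) (K + 1) := (0, root K, 0)
  let τ : Qn (3 ^ m + (K + 1)) (K + 1) (K + 1) → Ed (3 ^ m + (K + 1)) (K + 1) (K + 1) → A :=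
    fun v => if v = v₀ then fun e => ((3 ^ m : ℕ) : A) ^ (K + 1) * (Pi.single e₀ (1 : A) :
      Ed (3 ^ m + (K + 1)) (K + 1) (K + 1) → A) e else 0
  have hne : v₀ ≠ tgt e₀ := by
    intro h
    have h1 := (tgt_eq_inl (e := e₀) (j := 0) (t := root K)).1 h.symm
    have h2 := child_lev _ _ _ h1.2
    have h3 : lev (root K : Nd (3 ^ m + (K + 1)) (K + 1)) + 1 = lev (root K) := h2
    omega
  have hτ : ∑ v, bd src tgt (τ v) v = - ((3 ^ m : ℕ) : A) ^ (K + 1) := by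
    rw [Finset.sum_eq_single v₀]
    · have h1 : τ v₀ = fun e => ((3 ^ m : ℕ) : A) ^ (K + 1) * (Pi.single e₀ (1 : A) :
          Ed (3 ^ m + (K + 1)) (K + 1) (K + 1) → A) e := if_pos rfl
      rw [h1, bd_mul, bd_single, if_neg hne, if_pos (show v₀ = src e₀ from rfl)]
      ring
    · intro v _ hv
      have h1 : τ v = 0 := if_neg hv
      rw [h1, bd_zero]
    · intro h
      exact absurd (mem_univ _) h
  have hτ0 : ∑ v, bd src tgt (τ v) v ≠ 0 := by
    rw [hτ, neg_ne_zero]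
    intro h
    have h1 : ((3 ^ (m * (K + 1)) : ℕ) : ZMod (3 ^ s)) = 0 := by
      rw [pow_mul, Nat.cast_pow]
      exact h
    rw [ZMod.natCast_eq_zero_iff] at h1
    have h2 := Nat.le_of_dvd (by positivity) h1
    have h4 : 3 ^ (m * (K + 1)) < 3 ^ s := Nat.pow_lt_pow_right (by norm_num) (by omega)
    omega
  let ℓ : ℕ := 2 * Fintype.card (RV A (src (D := 3 ^ m + (K + 1)) (L := K + 1) (R := K + 1)) tgt) + 3
  have : NeZero ℓ := ⟨by omega⟩
  have hℓ2 : ∀ a : ZMod ℓ, a + a = 0 → a = 0 := no_two (j := Fintype.card (RV A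
    (src (D := 3 ^ m + (K + 1)) (L := K + 1) (R := K + 1)) tgt) + 1) (by omega)
  have hA2 : ∀ a : A, a + a = 0 → a = 0 := no_two hj
  have hcA : Fintype.card A = (3 ^ m) ^ (K + 1) * 3 := by
    have h5 : Fintype.card A = 3 ^ s := ZMod.card _
    rw [h5, ← pow_mul, ← pow_succ]
  have hcQ : 0 < Fintype.card (Cl (3 ^ m + (K + 1)) (K + 1) (K + 1)) :=
    Fintype.card_pos_iff.2 ⟨.inl e₀⟩
  refine ⟨VV A (src (D := 3 ^ m + (K + 1)) (L := K + 1) (R := K + 1)) tgt ℓ, inferInstance,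
    arcV src tgt 0, arcV src tgt τ, ?_, arcV_tour _ _ _ hA2 hℓ2, arcV_tour _ _ _ hA2 hℓ2,
    not_iso src tgt τ hτ0 rfl hℓ2, ?_⟩
  · exact bound k K (3 ^ m) hk hK hm hm2 _ _ _ _ (card_VV src tgt rfl hcQ)
      (card_Cl (by omega) (by omega))
      (card_RV src tgt (see_le (by omega)) (by rw [hcA]; positivity)) hcA
  have : Finite (XX (A := A) (src (D := 3 ^ m + (K + 1)) (L := K + 1) (R := K + 1)) tgt) :=
    Subtype.finite
  have : Fintype (XX (A := A) (src (D := 3 ^ m + (K + 1)) (L := K + 1) (R := K + 1)) tgt) :=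
    Fintype.ofFinite _
  obtain ⟨n, hn⟩ : ∃ n, Fintype.card (XX (A := A) (src (D := 3 ^ m + (K + 1)) (L := K + 1)
      (R := K + 1)) tgt) = 3 ^ n := by
    have h1 := AddSubgroup.card_addSubgroup_dvd_card
      (XX (A := A) (src (D := 3 ^ m + (K + 1)) (L := K + 1) (R := K + 1)) tgt)
    have h2 : Nat.card (Cl (3 ^ m + (K + 1)) (K + 1) (K + 1) →
        Ed (3 ^ m + (K + 1)) (K + 1) (K + 1) → A) =
        3 ^ (s * Nat.card (Ed (3 ^ m + (K + 1)) (K + 1) (K + 1)) *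
          Nat.card (Cl (3 ^ m + (K + 1)) (K + 1) (K + 1))) := by
      rw [Nat.card_fun, Nat.card_fun, pow_mul, pow_mul]
      congr 2
      exact Nat.card_zmod _
    rw [h2, Nat.dvd_prime_pow Nat.prime_three] at h1
    obtain ⟨n, -, h4⟩ := h1
    exact ⟨n, by rw [← Nat.card_eq_fintype_card]; exact h4⟩
  have hD : K < 3 ^ m + (K + 1) := by omega
  refine imEquivAll (A := act K hD (Nat.lt_succ_self K) τ ℓ) (act_torsor _ _ _ _ _) hn ?_ ?_ ?_ ?_
  · show 4 * (1 * k) ≤ K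
    omega
  · show 1 + 1 ≤ K
    omega
  · intro F _ _ W₀ M₀ hW hM
    have hW' : W₀.card ≤ 1 * k := hW
    exact hasPM hm F τ hτ W₀ (by omega) M₀ hM (r := 1 * (2 * k)) (by omega)
  · intro F _ _ W₀ M₀ hW hM
    have hW' : W₀.card ≤ 1 * k := hW
    exact hasPM0 (K := K) hD (Nat.lt_succ_self K) F W₀ (by omega) M₀ hM

end Pool.Agent.K4H90.AllF
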