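import Pool.Agent.K4H90.AllF.Base
import Pool.Agent.K4H90.AllF.Core

/-!
# The system of the base graph and its local solutions modulo `p`
-/

set_option autoImplicit false
set_option linter.unusedSectionVars false

namespace Pool.Agent.K4H90.AllF

open Finset Pool.Agent.TH658.Dg Pool.Agent.TH658.Sos Nd

section

variable {D L R : ℕ} {A : Type} [CommRing A]

theorem glob {K : ℕ} (hD : K < D) (τ : Qn D (L + 1) R → Ed D (L + 1) R → A)
    {W : Finset (Cl D (L + 1) R)} (hW : W.card ≤ K) {j : Fin R} (hj : Free W j)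
    {M₀ : XX (A := A) (src (D := D) (L := L + 1) (R := R)) tgt} (hM₀ : M₀ ∈ SolS src tgt τ W) :
    ∃ y : Ed D (L + 1) R → A, (∀ c ∈ W, ∀ e, See src tgt c e → y e = M₀.1 c e + tw τ c e) ∧
      ∀ v, v ≠ .inl (j, root L) → bd src tgt y v = bd src tgt (τ v) v :=
  exists_glob τ hM₀ (conn (by omega) hj)

theorem extend {K : ℕ} (hD : K < D) (hR : K < R) (τ : Qn D (L + 1) R → Ed D (L + 1) R → A)
    (W W' : Finset (Cl D (L + 1) R)) (hWW : W ≤ W') (hW' : W'.card ≤ K)
    (M : XX (A := A) (src (D := D) (L := L + 1) (R := R)) tgt) (hM : M ∈ SolS src tgt τ W) :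
    ∃ M' ∈ SolS src tgt τ W', M' - M ∈ NN src tgt W := by
  obtain ⟨j, hj⟩ := exists_free W' (by omega)
  have hj' : Free W j := ⟨fun t a h => hj.1 t a (hWW h), fun t h => hj.2 t (hWW h)⟩
  obtain ⟨y, h1, h2⟩ := glob hD τ ((card_le_card hWW).trans hW') hj' hM
  have h3 : ∀ c ∈ W', ∀ e, See src tgt c e →
      (mk src tgt fun c e => y e - tw τ c e).1 c e = y e - tw τ c e := by
    intro c hc e he
    refine mk_apply src tgt (z := fun c e => y e - tw τ c e) c (fun v hv => ?_) e he
    subst hv
    show bd src tgt (y - τ v) v = 0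
    rw [bd_sub, h2 v, sub_self]
    rintro rfl
    exact hj.2 _ hc
  refine ⟨mk src tgt fun c e => y e - tw τ c e, ?_, ?_⟩
  · intro c hc c' hc' e he he'
    rw [h3 c hc e he, h3 c' hc' e he', sub_add_cancel, sub_add_cancel]
  · intro c hc
    have h4 : (mk src tgt fun c e => y e - tw τ c e).1 c = M.1 c := by
      refine ext_class src tgt c fun e he => ?_
      rw [h3 c (hWW hc) e he, h1 c hc e he, add_sub_cancel_right]
    show (mk src tgt fun c e => y e - tw τ c e).1 c - M.1 c = 0
    rw [h4, sub_self]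

/-- The system of the base graph. -/
def sys (K : ℕ) (hD : K < D) (hR : K < R) (τ : Qn D (L + 1) R → Ed D (L + 1) R → A) :
    Sys (XX (A := A) (src (D := D) (L := L + 1) (R := R)) tgt) (Finset (Cl D (L + 1) R)) where
  N := NN src tgt
  D := DD src tgt
  Sol := SolS src tgt τ
  size := Finset.card
  K := K
  N_anti W W' h M hM c hc := hM c (h hc)
  D_anti W W' h M hM c hc c' hc' := hM c (h hc) c' (h hc')
  Sol_anti W W' h M hM c hc c' hc' := hM c (h hc) c' (h hc')
  sol_iff W M M' hM := by
    constructor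
    · intro h c hc c' hc' e he he'
      show M'.1 c e - M.1 c e = M'.1 c' e - M.1 c' e
      have h1 := h c hc c' hc' e he he'
      have h2 := hM c hc c' hc' e he he'
      linear_combination h1 - h2
    · intro h c hc c' hc' e he he'
      have h1 : M'.1 c e - M.1 c e = M'.1 c' e - M.1 c' e := h c hc c' hc' e he he'
      have h2 := hM c hc c' hc' e he he'
      linear_combination h1 + h2
  size_bot := Finset.card_empty
  size_sup W W' := Finset.card_union_le W W'
  nonempty W hW := by
    obtain ⟨M, hM, -⟩ := extend hD hR τ ∅ W (Finset.empty_subset W) hW 0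
      (fun c hc => absurd hc (Finset.notMem_empty c))
    exact ⟨M, hM⟩
  extend W W' h hK M hM := extend hD hR τ W W' h hK M hM

end

/-! ### The shifts -/

section

variable {D L R : ℕ} {A : Type} [CommRing A]

theorem tgt_eq_inl {e : Ed D L R} {j : Fin R} {t : Nd D L} :
    tgt e = .inl (j, t) ↔ e.1 = j ∧ child e.2.1 e.2.2 = some t := by
  obtain ⟨i, u, a⟩ := e
  rcases h : child u a with _ | t'
  · rw [tgt_none h]
    simp
  · rw [tgt_some h]
    simp

theorem tgt_eq_inr {e : Ed D L R} {a : Lf D L × Fin D} :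
    tgt e = .inr a ↔ e.2.1 = a.1.1 ∧ e.2.2 = a.2 := by
  obtain ⟨i, u, b⟩ := e
  obtain ⟨⟨t, ht⟩, a⟩ := a
  rcases h : child u b with _ | t'
  · rw [tgt_none h]
    simp
  · rw [tgt_some h]
    constructor
    · intro h1
      cases h1
    · rintro ⟨h1, h2⟩
      have h3 : u = t := h1
      rw [h3, (child_none t b).2 ht] at h
      cases h

theorem sum_out (g : Ed D L R → A) (j : Fin R) (t : Nd D L) :
    ∑ e : Ed D L R, (if src e = .inl (j, t) then g e else 0) = ∑ a, g (j, t, a) := by
  classical
  rw [Fintype.sum_prod_type, Finset.sum_eq_single j, Fintype.sum_prod_type,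
    Finset.sum_eq_single t]
  · refine Finset.sum_congr rfl fun a _ => ?_
    exact if_pos rfl
  · intro t' _ h
    refine Finset.sum_eq_zero fun a _ => ?_
    rw [if_neg]
    intro h1
    exact h (Prod.mk.inj (Sum.inl.inj h1)).2
  · intro h
    exact absurd (mem_univ _) h
  · intro i _ h
    refine Finset.sum_eq_zero fun a _ => ?_
    rw [if_neg]
    intro h1
    exact h (Prod.mk.inj (Sum.inl.inj h1)).1
  · intro h
    exact absurd (mem_univ _) h

theorem sum_in (g : Ed D L R → A) (j : Fin R) (t u : Nd D L) (a : Fin D)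
    (h : child u a = some t) :
    ∑ e : Ed D L R, (if tgt e = .inl (j, t) then g e else 0) = g (j, u, a) := by
  classical
  rw [Finset.sum_eq_single (j, u, a)]
  · rw [if_pos (tgt_some h)]
  · rintro ⟨i, u', a'⟩ _ h1
    rw [if_neg]
    intro h2
    rw [tgt_eq_inl] at h2
    obtain ⟨rfl, h3⟩ := h2
    obtain ⟨rfl, rfl⟩ := child_inj _ _ _ _ _ h3 h
    exact h1 rfl
  · intro h
    exact absurd (mem_univ _) h

theorem sum_in_root (g : Ed D (L + 1) R → A) (j : Fin R) :
    ∑ e : Ed D (L + 1) R, (if tgt e = .inl (j, root L) then g e else 0) = 0 := by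
  refine Finset.sum_eq_zero fun e _ => ?_
  rw [if_neg]
  intro h
  rw [tgt_eq_inl] at h
  have h1 := child_lev _ _ _ h.2
  have h2 := lev_le e.2.1
  rw [lev] at h1
  omega

variable (P : ℕ)

/-- The shift of the values at the edges in the region `j`. -/
def sv (σ : Cfg D L) (j : Fin R) (e : Ed D L R) : A :=
  if e.1 = j ∧ e.2.2 ∈ σ e.2.1 then (P : A) ^ (lev e.2.1 - 1) else 0

/-- The shift at a class. -/
def sh (σ : Cfg D L) (j : Fin R) : Cl D L R → Ed D L R → A
  | .inl _, e => sv P σ j e
  | .inr (.inr _), _ => 0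
  | .inr (.inl (i, t)), e =>
      if src e = .inl (i, t) then sv P σ j e
      else if i = j ∧ (σ t).Nonempty then (P : A) ^ lev t else 0

theorem sum_sv (σ : Cfg D L) (j : Fin R) (t : Nd D L) :
    ∑ a, sv (A := A) P σ j (j, t, a) = (σ t).card * (P : A) ^ (lev t - 1) := by
  classical
  have h : ∀ a : Fin D, sv (A := A) P σ j (j, t, a) =
      if a ∈ σ t then (P : A) ^ (lev t - 1) else 0 := by
    intro a
    unfold sv
    simp
  rw [Finset.sum_congr rfl fun a _ => h a, ← Finset.sum_filter, Finset.sum_const, nsmul_eq_mul]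
  congr 2
  rw [Finset.filter_mem_eq_inter, Finset.univ_inter]

theorem bd_sh_out (σ : Cfg D L) (j : Fin R) (t : Nd D L) :
    ∑ e : Ed D L R, (if src e = .inl (j, t) then sh (A := A) P σ j (.inr (.inl (j, t))) e else 0) =
      (σ t).card * (P : A) ^ (lev t - 1) := by
  rw [← sum_sv, ← sum_out]
  refine Finset.sum_congr rfl fun e _ => ?_
  by_cases h : src e = .inl (j, t)
  · rw [if_pos h, if_pos h]
    show (if src e = .inl (j, t) then sv P σ j e
      else if j = j ∧ (σ t).Nonempty then (P : A) ^ lev t else 0) = _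
    rw [if_pos h]
  · rw [if_neg h, if_neg h]

theorem bd_sh_in (σ : Cfg D L) (j : Fin R) (t u : Nd D L) (a : Fin D) (h : child u a = some t) :
    ∑ e : Ed D L R, (if tgt e = .inl (j, t) then sh (A := A) P σ j (.inr (.inl (j, t))) e else 0) =
      if (σ t).Nonempty then (P : A) ^ lev t else 0 := by
  rw [sum_in _ _ _ _ _ h]
  show (if src (j, u, a) = .inl (j, t) then sv P σ j (j, u, a)
      else if j = j ∧ (σ t).Nonempty then (P : A) ^ lev t else 0) = _
  rw [if_neg]
  · simp
  · intro h1
    have h2 : u = t := (Prod.mk.inj (Sum.inl.inj h1)).2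
    have h3 := child_lev _ _ _ h
    rw [h2] at h3
    omega

theorem bd_sh_other (σ : Cfg D L) (j : Fin R) (v : Qn D L R) (hv : ∀ t, v ≠ .inl (j, t)) :
    bd src tgt (sh (A := A) P σ j (.inr v)) v = 0 := by
  rw [← bd_zero src tgt v]
  refine bd_congr src tgt fun e he => ?_
  rcases v with ⟨i, t⟩ | a
  · have hi : i ≠ j := by
      rintro rfl
      exact hv t rfl
    show (if src e = .inl (i, t) then sv P σ j e
      else if i = j ∧ (σ t).Nonempty then (P : A) ^ lev t else 0) = 0
    by_cases h : src e = .inl (i, t)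
    · rw [if_pos h]
      unfold sv
      rw [if_neg]
      rintro ⟨h1, -⟩
      have h2 : e.1 = i := (Prod.mk.inj (Sum.inl.inj h)).1
      exact hi (h2.symm.trans h1)
    · rw [if_neg h, if_neg]
      rintro ⟨h1, -⟩
      exact hi h1
  · rfl

end

/-! ### Valid configurations -/

section

variable {F : Type} [Field F] {P D : ℕ}

theorem wt_root {L : ℕ} {b : Bool} {σ : Cfg D (L + 1)} (h : wt F P (L + 1) b σ ≠ 0) :
    if b = true then (σ (root L)).card = P else σ (root L) = ∅ := by
  by_contra h1
  apply h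
  show (if (if b = true then (σ (root L)).card = P else σ (root L) = ∅) then (1 : F) else 0) * _ = 0
  rw [if_neg h1, zero_mul]

theorem wt_sub {L : ℕ} {b : Bool} {σ : Cfg D (L + 1)} (h : wt F P (L + 1) b σ ≠ 0) (j : Fin D) :
    wt F P L (decide (j ∈ σ (root L))) (fun t => σ (sub j t)) ≠ 0 :=
  Finset.prod_ne_zero_iff.1 (right_ne_zero_of_mul h) j (mem_univ j)

theorem wt_card : ∀ {L : ℕ} {b : Bool} {σ : Cfg D L}, wt F P L b σ ≠ 0 → ∀ t : Nd D L,
    (σ t).card = P ∨ σ t = ∅
  | L + 1, b, σ, h, root _ => by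
    have h1 := wt_root h
    cases b with
    | true => exact Or.inl h1
    | false => exact Or.inr h1
  | L + 1, b, σ, h, sub j t => wt_card (wt_sub h j) t

theorem wt_child (hP : 0 < P) : ∀ {L : ℕ} {b : Bool} {σ : Cfg D L}, wt F P L b σ ≠ 0 →
    ∀ (t : Nd D L) (a : Fin D) (t' : Nd D L), child t a = some t' →
      (a ∈ σ t ↔ (σ t').Nonempty)
  | 1, b, σ, _, root _, _, _, h => by cases h
  | L + 2, b, σ, h, root _, a, t', ht => by
    have h1 : sub a (root L) = t' := Option.some.inj ht
    subst h1
    have h2 := wt_root (wt_sub h a)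
    by_cases h3 : a ∈ σ (root (L + 1))
    · rw [if_pos (by simpa using h3)] at h2
      refine iff_of_true h3 ?_
      rw [← Finset.card_pos, h2]
      exact hP
    · rw [if_neg (by simpa using h3)] at h2
      refine iff_of_false h3 ?_
      rw [h2]
      exact Finset.not_nonempty_empty
  | L + 1, b, σ, h, sub j t, a, t', ht => by
    rw [child, Option.map_eq_some_iff] at ht
    obtain ⟨s, h1, rfl⟩ := ht
    exact wt_child hP (wt_sub h j) t a s h1

end

/-! ### The main property -/

section

variable {p m K : ℕ} [Fact p.Prime] {A : Type} [CommRing A]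

theorem bd_sh (hP : 0 < p ^ m) {F : Type} [Field F] {D R : ℕ} {σ : Cfg D (K + 1)}
    (hσ : wt F (p ^ m) (K + 1) true σ ≠ 0) (j : Fin R) (t : Nd D (K + 1)) :
    bd src tgt (sh (A := A) (p ^ m) σ j (.inr (.inl (j, t)))) (.inl (j, t)) =
      if t = root K then - ((p ^ m : ℕ) : A) ^ (K + 1) else 0 := by
  unfold bd
  rw [Finset.sum_sub_distrib, bd_sh_out]
  by_cases ht : t = root K
  · subst ht
    rw [sum_in_root, if_pos rfl]
    have h1 : (σ (root K)).card = p ^ m := wt_root hσ
    rw [h1]
    show 0 - _ * _ ^ (K + 1 - 1) = _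
    rw [Nat.add_sub_cancel]
    ring
  · rw [if_neg ht]
    have h1 : lev t < K + 1 := by
      refine lt_of_le_of_ne (lev_le t) fun h => ht (eq_root t h)
    obtain ⟨u, a, h2⟩ := exists_parent t h1
    rw [bd_sh_in _ _ _ _ _ _ h2]
    have h3 := lev_pos t
    rcases wt_card hσ t with h4 | h4
    · rw [if_pos (by rw [← Finset.card_pos, h4]; exact hP), h4]
      obtain ⟨l, hl⟩ := Nat.exists_eq_succ_of_ne_zero (Nat.pos_iff_ne_zero.1 h3)
      rw [hl]
      show _ ^ (l + 1) - _ * _ ^ (l + 1 - 1) = _
      rw [Nat.add_sub_cancel]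
      ring
    · rw [h4, if_neg Finset.not_nonempty_empty, Finset.card_empty]
      simp

/-- The families modulo `p`. -/
theorem hasPM (hκ : K + 1 < p ^ m) (F : Type) [Field F] [CharP F p]
    (τ : Qn (p ^ m + (K + 1)) (K + 1) (K + 1) → Ed (p ^ m + (K + 1)) (K + 1) (K + 1) → A)
    (hτ : ∑ v, bd src tgt (τ v) v = - ((p ^ m : ℕ) : A) ^ (K + 1))
    (W₀ : Finset (Cl (p ^ m + (K + 1)) (K + 1) (K + 1))) (hW₀ : W₀.card ≤ K)
    (M₀ : XX (A := A) (src (D := p ^ m + (K + 1)) (L := K + 1) (R := K + 1)) tgt)
    (hM₀ : M₀ ∈ SolS src tgt τ W₀) {r : ℕ} (hr : r ≤ K) :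
    HasPM F (NN src tgt) (SolS src tgt τ) Finset.card W₀ M₀ r := by
  classical
  obtain ⟨j, hj⟩ := exists_free W₀ (by omega)
  obtain ⟨y, hy1, hy2⟩ := glob (by omega) τ hW₀ hj hM₀
  have hyr : bd src tgt y (.inl (j, root K)) =
      bd src tgt (τ (.inl (j, root K))) (.inl (j, root K)) + ((p ^ m : ℕ) : A) ^ (K + 1) := by
    have h1 := sum_bd src tgt y
    rw [← Finset.add_sum_erase _ _ (mem_univ (Sum.inl (j, root K)))] at h1 hτ
    have h2 : ∑ v ∈ univ.erase (Sum.inl (j, root K)), bd src tgt y v =
        ∑ v ∈ univ.erase (Sum.inl (j, root K)), bd src tgt (τ v) v :=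
      Finset.sum_congr rfl fun v hv => hy2 v (ne_of_mem_erase hv)
    rw [h2] at h1
    linear_combination h1 - hτ
  let z : Cfg (p ^ m + (K + 1)) (K + 1) → Cl (p ^ m + (K + 1)) (K + 1) (K + 1) →
      Ed (p ^ m + (K + 1)) (K + 1) (K + 1) → A := fun σ c e =>
    y e + sh (p ^ m) σ j c e - tw τ c e
  have hP : 0 < p ^ m := by omega
  have hz : ∀ σ, wt F (p ^ m) (K + 1) true σ ≠ 0 → ∀ c v, c = Sum.inr v →
      bd src tgt (z σ c) v = 0 := by
    intro σ hσ c v hc
    subst hc
    show bd src tgt (y + sh (p ^ m) σ j (.inr v) - τ v) v = 0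
    rw [bd_sub, bd_add]
    by_cases hv : ∃ t, v = .inl (j, t)
    · obtain ⟨t, rfl⟩ := hv
      rw [bd_sh hP hσ]
      by_cases ht : t = root K
      · subst ht
        rw [if_pos rfl, hyr]
        ring
      · rw [if_neg ht, hy2]
        · ring
        · intro h
          exact ht (Prod.mk.inj (Sum.inl.inj h)).2
    · push Not at hv
      rw [bd_sh_other _ _ _ _ hv, hy2 v (hv _)]
      ring
  refine ⟨Cfg (p ^ m + (K + 1)) (K + 1), inferInstance, fun σ => wt F (p ^ m) (K + 1) true σ,
    fun σ => mk src tgt (z σ), sum_wt hκ _ _, ?_⟩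
  intro W hW hWr G hG1 hG2
  have hval : ∀ σ, wt F (p ^ m) (K + 1) true σ ≠ 0 → ∀ c e, See src tgt c e →
      (mk src tgt (z σ)).1 c e + tw τ c e = y e + sh (p ^ m) σ j c e := by
    intro σ hσ c e he
    rw [mk_apply src tgt c (hz σ hσ c) e he]
    show y e + sh (p ^ m) σ j c e - tw τ c e + tw τ c e = _
    rw [sub_add_cancel]
  let U : Finset (Nd (p ^ m + (K + 1)) (K + 1)) := univ.filter fun t =>
    Sum.inr (Sum.inl (j, t)) ∈ W ∨ ∃ a, Sum.inl (j, t, a) ∈ W
  have hU : U.card ≤ K := by
    let f : Cl (p ^ m + (K + 1)) (K + 1) (K + 1) → Option (Nd (p ^ m + (K + 1)) (K + 1)) := fun c =>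
      match c with
      | .inl e => some e.2.1
      | .inr (.inl v) => some v.2
      | .inr (.inr _) => none
    have h1 : (U.image some).card ≤ (W.image f).card := by
      refine card_le_card fun x hx => ?_
      obtain ⟨t, ht, rfl⟩ := mem_image.1 hx
      rw [mem_filter] at ht
      rw [mem_image]
      rcases ht.2 with h2 | ⟨a, h2⟩
      · exact ⟨_, h2, rfl⟩
      · exact ⟨_, h2, rfl⟩
    rw [card_image_of_injective _ (Option.some_injective _)] at h1
    have h2 := card_image_le (s := W) (f := f)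
    have h3 : W.card ≤ r := hWr
    omega
  let C : Finset (Nd (p ^ m + (K + 1)) (K + 1) × Fin (p ^ m + (K + 1))) := univ.filter fun c =>
    c.1 ∈ U ∧ lev c.1 = 1 ∧ ∃ h : lev c.1 = 1, Sum.inr (Sum.inr (⟨c.1, h⟩, c.2)) ∈ W
  refine sum_zero' hκ true U (by omega) (by omega) C ?_ (fun σ => G (mk src tgt (z σ))) ?_ ?_
  · intro c hc
    rw [mem_filter] at hc
    exact ⟨hc.2.1, hc.2.2.1⟩
  · -- dependence
    intro σ σ' h
    have h1 : mk src tgt (z σ) = mk src tgt (z σ') + (mk src tgt (z σ) - mk src tgt (z σ')) := by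
      abel
    show G (mk src tgt (z σ)) = G (mk src tgt (z σ'))
    rw [h1]
    refine hG1 _ _ ?_
    intro c hc
    show (mk src tgt (z σ)).1 c - (mk src tgt (z σ')).1 c = 0
    rw [sub_eq_zero]
    refine mk_congr src tgt c fun e he => ?_
    show y e + sh (p ^ m) σ j c e - tw τ c e = y e + sh (p ^ m) σ' j c e - tw τ c e
    congr 2
    have hsv : ∀ e : Ed (p ^ m + (K + 1)) (K + 1) (K + 1), (e.1 = j → e.2.1 ∈ U) →
        sv (A := A) (p ^ m) σ j e = sv (p ^ m) σ' j e := by
      intro e he
      unfold sv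
      by_cases h2 : e.1 = j
      · rw [h _ (he h2)]
      · rw [if_neg (fun h3 => h2 h3.1), if_neg (fun h3 => h2 h3.1)]
    rcases c with e' | ⟨i, t⟩ | a
    · have he' : e = e' := he
      subst he'
      refine hsv e fun h2 => ?_
      rw [mem_filter]
      refine ⟨mem_univ _, Or.inr ⟨e.2.2, ?_⟩⟩
      rw [← h2]
      exact hc
    · show (if src e = .inl (i, t) then sv (A := A) (p ^ m) σ j e
        else if i = j ∧ (σ t).Nonempty then (((p ^ m : ℕ) : A)) ^ lev t else 0) =
        (if src e = .inl (i, t) then sv (p ^ m) σ' j e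
        else if i = j ∧ (σ' t).Nonempty then (((p ^ m : ℕ) : A)) ^ lev t else 0)
      by_cases h2 : src e = .inl (i, t)
      · rw [if_pos h2, if_pos h2]
        have h3 : e.1 = i ∧ e.2.1 = t := Prod.mk.inj (Sum.inl.inj h2)
        refine hsv e fun h4 => ?_
        rw [mem_filter]
        refine ⟨mem_univ _, Or.inl ?_⟩
        rw [h3.2, ← h4, h3.1]
        exact hc
      · rw [if_neg h2, if_neg h2]
        by_cases h3 : i = j
        · rw [h t (by
            rw [mem_filter]
            refine ⟨mem_univ _, Or.inl ?_⟩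
            rw [← h3]
            exact hc)]
        · rw [if_neg (fun h4 => h3 h4.1), if_neg (fun h4 => h3 h4.1)]
    · rfl
  · intro σ hσ hC
    refine hG2 _ ?_ ?_
    · -- a solution
      have hcan : ∀ c ∈ W, ∀ e, See src tgt c e → (∀ a, c ≠ .inr (.inr a)) →
          sh (A := A) (p ^ m) σ j c e = sv (p ^ m) σ j e := by
        intro c hc e he hca
        rcases c with e' | ⟨i, t⟩ | a
        · rfl
        · show (if src e = .inl (i, t) then sv (A := A) (p ^ m) σ j e
            else if i = j ∧ (σ t).Nonempty then (((p ^ m : ℕ) : A)) ^ lev t else 0) = _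
          by_cases h2 : src e = .inl (i, t)
          · rw [if_pos h2]
          · rw [if_neg h2]
            rcases he with h3 | h3
            · rw [tgt_eq_inl] at h3
              obtain ⟨h4, h5⟩ := h3
              have h6 := wt_child hP hσ _ _ _ h5
              have h7 := child_lev _ _ _ h5
              have h8 : lev e.2.1 - 1 = lev t := by omega
              unfold sv
              rw [h8]
              simp only [h6, h4]
            · exact absurd h3 h2
        · exact absurd rfl (hca a)
      have hcore : ∀ c ∈ W, ∀ a, Sum.inr (Sum.inr a) ∈ W → ∀ e, See src tgt c e →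
          (∀ a, c ≠ .inr (.inr a)) → See src tgt (.inr (.inr a)) e →
          sv (A := A) (p ^ m) σ j e = 0 := by
        intro c hc a ha e he hca hea
        have h1 : tgt e = .inr a := by
          rcases hea with h1 | h1
          · exact h1
          · cases h1
        rw [tgt_eq_inr] at h1
        unfold sv
        rw [if_neg]
        rintro ⟨h2, h3⟩
        have h4 : lev e.2.1 = 1 := by
          rw [h1.1]
          exact a.1.2
        have h5 : e.2.1 ∈ U := by
          rw [mem_filter]
          refine ⟨mem_univ _, ?_⟩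
          rcases c with e' | ⟨i, t⟩ | a
          · have he' : e = e' := he
            subst he'
            right
            refine ⟨e.2.2, ?_⟩
            rw [← h2]
            exact hc
          · left
            rcases he with h6 | h6
            · rw [tgt_eq_inl, (child_none _ _).2 h4] at h6
              cases h6.2
            · have h7 : e.1 = i ∧ e.2.1 = t := Prod.mk.inj (Sum.inl.inj h6)
              rw [h7.2, ← h2, h7.1]
              exact hc
          · exact absurd rfl (hca a)
        refine hC (e.2.1, e.2.2) ?_ h3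
        rw [mem_filter]
        refine ⟨mem_univ _, h5, h4, h4, ?_⟩
        have h8 : ((⟨e.2.1, h4⟩, e.2.2) : Lf (p ^ m + (K + 1)) (K + 1) ×
            Fin (p ^ m + (K + 1))) = a := Prod.ext (Subtype.ext h1.1) h1.2
        rw [h8]
        exact ha
      intro c hc c' hc' e he he'
      rw [hval σ hσ c e he, hval σ hσ c' e he']
      congr 1
      by_cases h1 : ∃ a, c = .inr (.inr a)
      · obtain ⟨a, rfl⟩ := h1
        by_cases h2 : ∃ a, c' = .inr (.inr a)
        · obtain ⟨a', rfl⟩ := h2
          rfl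
        · push Not at h2
          rw [hcan c' hc' e he' h2, hcore c' hc' a hc e he' h2 he]
          rfl
      · push Not at h1
        by_cases h2 : ∃ a, c' = .inr (.inr a)
        · obtain ⟨a', rfl⟩ := h2
          rw [hcan c hc e he h1, hcore c hc a' hc' e he h1 he']
          rfl
        · push Not at h2
          rw [hcan c hc e he h1, hcan c' hc' e he' h2]
    · -- equal to `M₀` on `W₀`
      intro c hc
      show (mk src tgt (z σ)).1 c - M₀.1 c = 0
      rw [sub_eq_zero]
      refine ext_class src tgt c fun e he => ?_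
      have h1 := hval σ hσ c e he
      have h2 := hy1 c hc e he
      have h3 : sh (A := A) (p ^ m) σ j c e = 0 := by
        have hsv : e.1 ≠ j → sv (A := A) (p ^ m) σ j e = 0 := by
          intro h4
          unfold sv
          rw [if_neg (fun h5 => h4 h5.1)]
        rcases c with e' | ⟨i, t⟩ | a
        · have he' : e = e' := he
          subst he'
          refine hsv fun h4 => hj.1 e.2.1 e.2.2 ?_
          rw [← h4]
          exact hc
        · have hi : i ≠ j := by
            rintro rfl
            exact hj.2 t hc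
          show (if src e = .inl (i, t) then sv (A := A) (p ^ m) σ j e
            else if i = j ∧ (σ t).Nonempty then (((p ^ m : ℕ) : A)) ^ lev t else 0) = _
          rw [if_neg (fun h4 : i = j ∧ _ => hi h4.1)]
          split_ifs with h4
          · refine hsv fun h5 => hi ?_
            have h6 : e.1 = i := (Prod.mk.inj (Sum.inl.inj h4)).1
            rw [← h6, h5]
          · rfl
        · rfl
      rw [h3, add_zero, h2] at h1
      exact add_right_cancel h1

/-- The homogeneous system. -/
theorem hasPM0 {D L R : ℕ} (hD : K < D) (hR : K < R) (F : Type) [Field F]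
    (W₀ : Finset (Cl D (L + 1) R)) (hW₀ : W₀.card ≤ K)
    (M₀ : XX (A := A) (src (D := D) (L := L + 1) (R := R)) tgt)
    (hM₀ : M₀ ∈ DD src tgt W₀) {r : ℕ} :
    HasPM F (NN src tgt) (fun W => ((DD src tgt W :
      AddSubgroup (XX (A := A) (src (D := D) (L := L + 1) (R := R)) tgt)) : Set _))
      Finset.card W₀ M₀ r := by
  classical
  have h0 : M₀ ∈ SolS src tgt (0 : Qn D (L + 1) R → Ed D (L + 1) R → A) W₀ := by
    rw [← DD_eq]
    exact hM₀
  obtain ⟨j, hj⟩ := exists_free W₀ (by omega)
  obtain ⟨y, hy1, hy2⟩ := glob hD 0 hW₀ hj h0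
  have hy3 : ∀ v, bd src tgt y v = 0 := by
    have h1 : ∀ v, v ≠ Sum.inl (j, root L) → bd src tgt y v = 0 := fun v hv => by
      rw [hy2 v hv]
      exact bd_zero src tgt v
    intro v
    by_cases hv : v = Sum.inl (j, root L)
    · have h2 := sum_bd src tgt y
      rw [← Finset.add_sum_erase _ _ (mem_univ (Sum.inl (j, root L))),
        Finset.sum_eq_zero fun v hv => h1 v (ne_of_mem_erase hv), add_zero] at h2
      rw [hv, h2]
    · exact h1 v hv
  have htw : ∀ (c : Cl D (L + 1) R) (e : Ed D (L + 1) R),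
      tw (0 : Qn D (L + 1) R → Ed D (L + 1) R → A) c e = 0 := by
    intro c e
    rcases c with _ | _ <;> rfl
  have hval : ∀ c e, See src tgt c e → (mk src tgt fun _ => y).1 c e = y e := fun c e he =>
    mk_apply src tgt (z := fun _ => y) c (fun v _ => hy3 v) e he
  refine ⟨Unit, inferInstance, fun _ => 1, fun _ => mk src tgt fun _ => y, by simp, ?_⟩
  intro W _ _ G _ hG
  rw [Fintype.sum_unique, one_mul]
  refine hG _ ?_ ?_
  · intro c _ c' _ e he he'
    rw [hval c e he, hval c' e he']
  · intro c hc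
    show (mk src tgt fun _ => y).1 c - M₀.1 c = 0
    rw [sub_eq_zero]
    refine ext_class src tgt c fun e he => ?_
    rw [hval c e he, hy1 c hc e he, htw, add_zero]

end

end Pool.Agent.K4H90.AllF
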