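import Pool.Agent.K4H90.AllF.Loc
import Pool.Agent.TH658.Dg.Rigid

/-!
# The tournaments of a system of flows
-/

set_option autoImplicit false
set_option linter.unusedSectionVars false

namespace Pool.Agent.K4H90.AllF

open Finset Pool.Agent.TH658.Dg Pool.Agent.TH658.Sos

/-- A numbering. -/
noncomputable def nm {C : Type} [Fintype C] (c : C) : ℕ := (Fintype.equivFin C c : ℕ)

theorem nm_inj {C : Type} [Fintype C] {c c' : C} (h : nm c = nm c') : c = c' := by
  unfold nm at h
  exact (Fintype.equivFin C).injective (Fin.ext h)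

section

variable {A Q E : Type} [CommRing A] [Fintype A] [Fintype Q] [DecidableEq Q] [Fintype E]
  [DecidableEq E] (src tgt : E → Q)

/-- The vertices of the classes. -/
abbrev RV (A : Type) {Q E : Type} [CommRing A] [DecidableEq Q] [Fintype E] (src tgt : E → Q) :
    Type := {x : (E ⊕ Q) × (E → A) // x.2 ∈ GG src tgt x.1}

noncomputable instance instRV : Fintype (RV A src tgt) := by
  classical
  infer_instance

/-- The vertices: those of the classes, and `ℓ` vertices which mark the end of each class. -/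
abbrev VV (A : Type) {Q E : Type} [CommRing A] [DecidableEq Q] [Fintype E] (src tgt : E → Q)
    (ℓ : ℕ) : Type := RV A src tgt ⊕ (E ⊕ Q) × ZMod ℓ

variable (τ : Q → E → A)

/-- The arcs between the vertices of the classes. -/
def arc0 : E ⊕ Q → (E → A) → E ⊕ Q → (E → A) → Prop
  | .inr v, g, .inl e, g' => if tgt e = v ∨ src e = v then g e + τ v e = g' e else
      nm (Sum.inr v : E ⊕ Q) < nm (Sum.inl e : E ⊕ Q)
  | .inl e, g, .inr v, g' => if tgt e = v ∨ src e = v then ¬ (g' e + τ v e = g e) else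
      nm (Sum.inl e : E ⊕ Q) < nm (Sum.inr v : E ⊕ Q)
  | .inl e, g, .inl e', g' => if e = e' then arcG g g' else
      nm (Sum.inl e : E ⊕ Q) < nm (Sum.inl e' : E ⊕ Q)
  | .inr v, g, .inr v', g' => if v = v' then arcG g g' else
      nm (Sum.inr v : E ⊕ Q) < nm (Sum.inr v' : E ⊕ Q)

variable {ℓ : ℕ} [NeZero ℓ]

/-- The arcs. -/
def arcV : VV A src tgt ℓ → VV A src tgt ℓ → Prop
  | .inl x, .inl y => arc0 src tgt τ x.1.1 x.1.2 y.1.1 y.1.2
  | .inl x, .inr d => nm x.1.1 ≤ nm d.1
  | .inr d, .inl x => nm d.1 < nm x.1.1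
  | .inr d, .inr d' => if d.1 = d'.1 then arcG d.2 d'.2 else nm d.1 < nm d'.1

theorem arc0_tour (hA : ∀ a : A, a + a = 0 → a = 0) (c c' : E ⊕ Q) (g g' : E → A) :
    (arc0 src tgt τ c g c' g' → ¬ arc0 src tgt τ c' g' c g) ∧
      ((c, g) ≠ (c', g') → arc0 src tgt τ c g c' g' ∨ arc0 src tgt τ c' g' c g) := by
  have h2 : ∀ g : E → A, g + g = 0 → g = 0 := fun g h => funext fun e => hA _ (congrFun h e)
  rcases c with e | v <;> rcases c' with e' | v'
  · simp only [arc0]
    by_cases h : e = e'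
    · subst h
      simp only [if_true]
      exact ⟨arcG_asymm, fun h => arcG_total h2 fun h' => h (by rw [h'])⟩
    · rw [if_neg h, if_neg (Ne.symm h)]
      have : nm (Sum.inl e : E ⊕ Q) ≠ nm (Sum.inl e' : E ⊕ Q) := fun h1 => h
        (Sum.inl.inj (nm_inj h1))
      exact ⟨fun h1 => by omega, fun _ => by omega⟩
  · simp only [arc0]
    by_cases h : tgt e = v' ∨ src e = v'
    · rw [if_pos h, if_pos h]
      refine ⟨id, fun _ => ?_⟩
      tauto
    · rw [if_neg h, if_neg h]
      have : nm (Sum.inl e : E ⊕ Q) ≠ nm (Sum.inr v' : E ⊕ Q) := fun h1 => by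
        cases nm_inj h1
      exact ⟨fun h1 => by omega, fun _ => by omega⟩
  · simp only [arc0]
    by_cases h : tgt e' = v ∨ src e' = v
    · rw [if_pos h, if_pos h]
      refine ⟨fun h1 h2 => h2 h1, fun _ => ?_⟩
      tauto
    · rw [if_neg h, if_neg h]
      have : nm (Sum.inl e' : E ⊕ Q) ≠ nm (Sum.inr v : E ⊕ Q) := fun h1 => by
        cases nm_inj h1
      exact ⟨fun h1 => by omega, fun _ => by omega⟩
  · simp only [arc0]
    by_cases h : v = v'
    · subst h
      simp only [if_true]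
      exact ⟨arcG_asymm, fun h => arcG_total h2 fun h' => h (by rw [h'])⟩
    · rw [if_neg h, if_neg (Ne.symm h)]
      have : nm (Sum.inr v : E ⊕ Q) ≠ nm (Sum.inr v' : E ⊕ Q) := fun h1 => h
        (Sum.inr.inj (nm_inj h1))
      exact ⟨fun h1 => by omega, fun _ => by omega⟩

theorem arcV_tour (hA : ∀ a : A, a + a = 0 → a = 0) (hℓ : ∀ a : ZMod ℓ, a + a = 0 → a = 0) :
    IsTournament (arcV (ℓ := ℓ) src tgt τ) := by
  intro x y
  rcases x with x | ⟨d, u⟩ <;> rcases y with y | ⟨d', u'⟩
  · simp only [arcV]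
    have h := arc0_tour src tgt τ hA x.1.1 y.1.1 x.1.2 y.1.2
    refine ⟨h.1, fun h1 => h.2 fun h2 => h1 ?_⟩
    congr 1
    exact Subtype.ext (Prod.ext (Prod.mk.inj h2).1 (Prod.mk.inj h2).2)
  · simp only [arcV]
    omega
  · simp only [arcV]
    omega
  · simp only [arcV]
    by_cases h : d = d'
    · subst h
      simp only [if_true]
      exact ⟨arcG_asymm, fun h => arcG_total hℓ fun h' => h (by rw [h'])⟩
    · rw [if_neg h, if_neg (Ne.symm h)]
      have : nm d ≠ nm d' := fun h1 => h (nm_inj h1)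
      exact ⟨fun h1 => by omega, fun _ => by omega⟩

/-- The bijections. -/
def bb (M : XX (A := A) src tgt) : VV A src tgt ℓ ≃ VV A src tgt ℓ where
  toFun
    | .inl x => .inl ⟨(x.1.1, x.1.2 + M.1 x.1.1), (GG src tgt x.1.1).add_mem x.2 (M.2 x.1.1)⟩
    | .inr d => .inr d
  invFun
    | .inl x => .inl ⟨(x.1.1, x.1.2 - M.1 x.1.1), (GG src tgt x.1.1).sub_mem x.2 (M.2 x.1.1)⟩
    | .inr d => .inr d
  left_inv x := by
    rcases x with x | x
    · show Sum.inl _ = Sum.inl _
      congr 1
      refine Subtype.ext (Prod.ext rfl ?_)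
      show x.1.2 + M.1 x.1.1 - M.1 x.1.1 = _
      rw [add_sub_cancel_right]
    · rfl
  right_inv x := by
    rcases x with x | x
    · show Sum.inl _ = Sum.inl _
      congr 1
      refine Subtype.ext (Prod.ext rfl ?_)
      show x.1.2 - M.1 x.1.1 + M.1 x.1.1 = _
      rw [sub_add_cancel]
    · rfl

/-- The class of a vertex. -/
def lvl : VV A src tgt ℓ → Finset (E ⊕ Q)
  | .inl x => {x.1.1}
  | .inr _ => ∅

theorem arc0_bb (c c' : E ⊕ Q) (g g' : E → A) {M : XX (A := A) src tgt}
    (hM : M ∈ SolS src tgt τ ({c} ∪ {c'})) :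
    arc0 src tgt 0 c g c' g' ↔ arc0 src tgt τ c (g + M.1 c) c' (g' + M.1 c') := by
  have h0 : ∀ (v : Q) (e : E), (0 : Q → E → A) v e = 0 := fun _ _ => rfl
  rcases c with e | v <;> rcases c' with e' | v'
  · simp only [arc0]
    by_cases h : e = e'
    · subst h
      rw [if_pos rfl, if_pos rfl, arcG_add]
    · rw [if_neg h, if_neg h]
  · simp only [arc0, h0, add_zero]
    by_cases h : tgt e = v' ∨ src e = v'
    · rw [if_pos h, if_pos h]
      have h1 := hM (.inl e) (by simp) (.inr v') (by simp) e rfl h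
      have h2 : M.1 (.inl e) e = M.1 (.inr v') e + τ v' e := by
        have h3 : M.1 (.inl e) e + 0 = M.1 (.inr v') e + τ v' e := h1
        rwa [add_zero] at h3
      simp only [Pi.add_apply, h2]
      rw [not_iff_not]
      constructor
      · intro h3
        rw [h3]
        ring
      · intro h3
        linear_combination h3
    · rw [if_neg h, if_neg h]
  · simp only [arc0, h0, add_zero]
    by_cases h : tgt e' = v ∨ src e' = v
    · rw [if_pos h, if_pos h]
      have h1 := hM (.inr v) (by simp) (.inl e') (by simp) e' h rfl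
      have h2 : M.1 (.inl e') e' = M.1 (.inr v) e' + τ v e' := by
        have h3 : M.1 (.inr v) e' + τ v e' = M.1 (.inl e') e' + 0 := h1
        rw [add_zero] at h3
        exact h3.symm
      simp only [Pi.add_apply, h2]
      constructor
      · intro h3
        rw [h3]
        ring
      · intro h3
        linear_combination h3
    · rw [if_neg h, if_neg h]
  · simp only [arc0]
    by_cases h : v = v'
    · subst h
      rw [if_pos rfl, if_pos rfl, arcG_add]
    · rw [if_neg h, if_neg h]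

theorem arcV_bb {x y : VV A src tgt ℓ} {M : XX (A := A) src tgt}
    (hM : M ∈ SolS src tgt τ (lvl src tgt x ∪ lvl src tgt y)) :
    arcV src tgt 0 x y ↔ arcV src tgt τ (bb src tgt M x) (bb src tgt M y) := by
  rcases x with x | ⟨d, u⟩ <;> rcases y with y | ⟨d', u'⟩
  · exact arc0_bb src tgt τ _ _ _ _ hM
  · exact Iff.rfl
  · exact Iff.rfl
  · exact Iff.rfl

/-! ### Rigidity -/

open Classical in
/-- The number of classes which are not below `c`. -/
noncomputable def above (c : E ⊕ Q) : ℕ := (univ.filter fun d : E ⊕ Q => nm c ≤ nm d).card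

open Classical in
/-- The number of classes above `c`. -/
noncomputable def above' (c : E ⊕ Q) : ℕ := (univ.filter fun d : E ⊕ Q => nm c < nm d).card

theorem above_lt {c c' : E ⊕ Q} (h : nm c < nm c') : above c' < above c := by
  classical
  refine Finset.card_lt_card ⟨?_, ?_⟩
  · intro d hd
    rw [mem_filter] at hd ⊢
    exact ⟨mem_univ _, by omega⟩
  · intro h1
    have h2 := h1 (show c ∈ univ.filter fun d : E ⊕ Q => nm c ≤ nm d from
      mem_filter.2 ⟨mem_univ _, le_rfl⟩)
    rw [mem_filter] at h2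
    omega

theorem above_inj {c c' : E ⊕ Q} (h : above c = above c') : c = c' := by
  rcases lt_trichotomy (nm c) (nm c') with h1 | h1 | h1
  · have := above_lt h1
    omega
  · exact nm_inj h1
  · have := above_lt h1
    omega

open Classical in
/-- The out-degree. -/
noncomputable def outd (T : VV A src tgt ℓ → VV A src tgt ℓ → Prop) (x : VV A src tgt ℓ) : ℕ :=
  (univ.filter fun y => T x y).card

theorem card_sum_filter {B C : Type} [Fintype B] [Fintype C] (p : B ⊕ C → Prop)
    [DecidablePred p] : (univ.filter p).card =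
      (univ.filter fun b => p (.inl b)).card + (univ.filter fun c => p (.inr c)).card := by
  rw [Finset.card_filter, Finset.card_filter, Finset.card_filter, Fintype.sum_sum_type]

theorem out_real (x : RV A src tgt) : ∃ ρ ≤ Fintype.card (RV A src tgt),
    outd src tgt (arcV (ℓ := ℓ) src tgt τ) (.inl x) = above x.1.1 * ℓ + ρ := by
  classical
  unfold outd
  rw [card_sum_filter]
  refine ⟨_, Finset.card_le_univ
    (univ.filter fun y : RV A src tgt => arcV (ℓ := ℓ) src tgt τ (.inl x) (.inl y)), ?_⟩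
  rw [add_comm]
  congr 1
  have h : (univ.filter fun d : (E ⊕ Q) × ZMod ℓ => arcV src tgt τ (.inl x) (.inr d)) =
      (univ.filter fun d : E ⊕ Q => nm x.1.1 ≤ nm d) ×ˢ (univ : Finset (ZMod ℓ)) := by
    ext d
    rw [mem_filter, mem_product, mem_filter]
    simp only [mem_univ, true_and, and_true]
    exact Iff.rfl
  rw [h, card_product, card_univ, ZMod.card]
  rfl

theorem out_padv (d : E ⊕ Q) (u : ZMod ℓ) : ∃ ρ ≤ Fintype.card (RV A src tgt),
    outd src tgt (arcV (ℓ := ℓ) src tgt τ) (.inr (d, u)) = above' d * ℓ + kap (ZMod ℓ) + ρ := by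
  classical
  unfold outd
  rw [card_sum_filter]
  refine ⟨_, Finset.card_le_univ
    (univ.filter fun y : RV A src tgt => arcV (ℓ := ℓ) src tgt τ (.inr (d, u)) (.inl y)), ?_⟩
  rw [add_comm]
  congr 1
  have h : (univ.filter fun d' : (E ⊕ Q) × ZMod ℓ => arcV (A := A) src tgt τ (.inr (d, u)) (.inr d')) =
      ((univ.filter fun d' : E ⊕ Q => nm d < nm d') ×ˢ (univ : Finset (ZMod ℓ))) ∪
      (univ.filter fun u' : ZMod ℓ => arcG u u').image (fun u' => (d, u')) := by
    ext d'
    obtain ⟨d', u'⟩ := d'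
    rw [mem_filter, mem_union, mem_product, mem_filter, mem_image]
    simp only [mem_univ, true_and, and_true, mem_filter]
    simp only [arcV]
    by_cases h1 : d = d'
    · subst h1
      simp
    · rw [if_neg h1]
      constructor
      · exact fun h2 => Or.inl h2
      · rintro (h2 | ⟨u'', -, h3⟩)
        · exact h2
        · exact absurd (Prod.mk.inj h3).1 h1
  rw [h, card_union_of_disjoint, card_product, card_univ, ZMod.card,
    card_image_of_injective _ (fun u u' h => (Prod.mk.inj h).2), card_arcG]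
  · rfl
  · rw [disjoint_left]
    intro z hz hz'
    rw [mem_product, mem_filter] at hz
    rw [mem_image] at hz'
    obtain ⟨u', -, rfl⟩ := hz'
    exact absurd hz.1.2 (lt_irrefl _)

theorem out_iso {T T' : VV A src tgt ℓ → VV A src tgt ℓ → Prop}
    (φ : VV A src tgt ℓ ≃ VV A src tgt ℓ) (hφ : ∀ x y, T x y ↔ T' (φ x) (φ y))
    (x : VV A src tgt ℓ) : outd src tgt T x = outd src tgt T' (φ x) := by
  classical
  unfold outd
  refine Finset.card_bij' (fun y _ => φ y) (fun y _ => φ.symm y) ?_ ?_ ?_ ?_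
  · intro y hy
    rw [Finset.mem_filter] at hy ⊢
    exact ⟨Finset.mem_univ _, (hφ x y).1 hy.2⟩
  · intro y hy
    rw [Finset.mem_filter] at hy ⊢
    refine ⟨Finset.mem_univ _, (hφ _ _).2 ?_⟩
    rw [Equiv.apply_symm_apply]
    exact hy.2
  · intro y _
    exact φ.symm_apply_apply y
  · intro y _
    exact φ.apply_symm_apply y

/-- Isomorphisms preserve the classes. -/
theorem class_iso (τ' : Q → E → A) (hℓ : ℓ = 2 * Fintype.card (RV A src tgt) + 3)
    (hℓ2 : ∀ a : ZMod ℓ, a + a = 0 → a = 0)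
    (φ : VV A src tgt ℓ ≃ VV A src tgt ℓ)
    (hφ : ∀ x y, arcV src tgt τ x y ↔ arcV src tgt τ' (φ x) (φ y)) (x : RV A src tgt) :
    ∃ y : RV A src tgt, φ (.inl x) = .inl y ∧ y.1.1 = x.1.1 := by
  have h1 := out_iso src tgt φ hφ (.inl x)
  obtain ⟨ρ, h2, h3⟩ := out_real (ℓ := ℓ) src tgt τ x
  have hk := two_kap hℓ2
  rw [ZMod.card] at hk
  rcases h4 : φ (.inl x) with y | ⟨d, u⟩
  · refine ⟨y, rfl, ?_⟩
    obtain ⟨ρ', h5, h6⟩ := out_real (ℓ := ℓ) src tgt τ' y
    rw [h3, h4, h6] at h1
    refine above_inj ?_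
    rcases lt_trichotomy (above y.1.1) (above x.1.1) with h7 | h7 | h7
    · have h8 := Nat.mul_le_mul_right ℓ (Nat.succ_le_of_lt h7)
      rw [Nat.succ_mul] at h8
      omega
    · exact h7
    · have h8 := Nat.mul_le_mul_right ℓ (Nat.succ_le_of_lt h7)
      rw [Nat.succ_mul] at h8
      omega
  · exfalso
    obtain ⟨ρ', h5, h6⟩ := out_padv (ℓ := ℓ) src tgt τ' d u
    rw [h3, h4, h6] at h1
    rcases le_or_gt (above x.1.1) (above' d) with h7 | h7
    · have h8 := Nat.mul_le_mul_right ℓ h7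
      omega
    · have h8 := Nat.mul_le_mul_right ℓ (Nat.succ_le_of_lt h7)
      rw [Nat.succ_mul] at h8
      omega

/-- The tournaments are not isomorphic. -/
theorem not_iso (hτ : ∑ v, bd src tgt (τ v) v ≠ 0)
    (hℓ : ℓ = 2 * Fintype.card (RV A src tgt) + 3) (hℓ2 : ∀ a : ZMod ℓ, a + a = 0 → a = 0) :
    ¬ ∃ φ : VV A src tgt ℓ ≃ VV A src tgt ℓ,
      ∀ x y, arcV src tgt 0 x y ↔ arcV src tgt τ (φ x) (φ y) := by
  rintro ⟨φ, hφ⟩
  let o : E ⊕ Q → RV A src tgt := fun c => ⟨(c, 0), (GG src tgt c).zero_mem⟩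
  have h1 : ∀ c, ∃ y : RV A src tgt, φ (.inl (o c)) = .inl y ∧ y.1.1 = c := fun c =>
    class_iso src tgt 0 τ hℓ hℓ2 φ hφ (o c)
  choose y hy1 hy2 using h1
  have h2 : ∀ v e, (tgt e = v ∨ src e = v) → (y (.inr v)).1.2 e + τ v e = (y (.inl e)).1.2 e := by
    intro v e he
    have h3 : arcV (ℓ := ℓ) src tgt 0 (.inl (o (.inr v))) (.inl (o (.inl e))) := by
      show arc0 src tgt 0 (.inr v) 0 (.inl e) 0
      simp only [arc0]
      rw [if_pos he]
      simp
    rw [hφ, hy1, hy1] at h3
    have h4 : arc0 src tgt τ (y (.inr v)).1.1 (y (.inr v)).1.2 (y (.inl e)).1.1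
      (y (.inl e)).1.2 := h3
    rw [hy2, hy2] at h4
    simp only [arc0] at h4
    rwa [if_pos he] at h4
  let Y : E → A := fun e => (y (.inl e)).1.2 e
  have h3 : ∀ v, bd src tgt Y v = bd src tgt (τ v) v := by
    intro v
    have h4 : bd src tgt Y v = bd src tgt ((y (.inr v)).1.2 + τ v) v :=
      bd_congr src tgt fun e he => (h2 v e he).symm
    have h5 := (y (.inr v)).2
    rw [h4, bd_add, h5.2 v (hy2 _), zero_add]
  apply hτ
  rw [← Finset.sum_congr rfl fun v _ => h3 v]
  exact sum_bd src tgt Y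

end

end Pool.Agent.K4H90.AllF
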