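import Pool.Agent.K4H90.AllF.Pm
import Pool.Agent.K4H90.AllF.Tour

/-!
# The number of vertices
-/

set_option autoImplicit false
set_option linter.unusedSectionVars false

namespace Pool.Agent.K4H90.AllF

open Finset Pool.Agent.TH658.Dg Pool.Agent.TH658.Sos Nd

section

variable {A Q E : Type} [CommRing A] [Fintype A] [Fintype Q] [DecidableEq Q] [Fintype E]
  [DecidableEq E] (src tgt : E → Q)

/-- The size of the group of a class. -/
theorem card_GG (c : E ⊕ Q) (S : Finset E) (hS : ∀ e, See src tgt c e → e ∈ S) :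
    Nat.card (GG (A := A) src tgt c) ≤ Fintype.card A ^ S.card := by
  classical
  have h1 : Fintype.card A ^ S.card = Nat.card (S → A) := by
    rw [Nat.card_eq_fintype_card, Fintype.card_fun, Fintype.card_coe]
  rw [h1]
  refine Nat.card_le_card_of_injective (fun (g : GG (A := A) src tgt c) (e : S) => g.1 e) ?_
  intro g g' h
  refine Subtype.ext (funext fun e => ?_)
  by_cases he : See src tgt c e
  · exact congrFun h ⟨e, hS e he⟩
  · rw [g.2.1 e he, g'.2.1 e he]

theorem card_RV {d : ℕ} (hd : ∀ c, ∃ S : Finset E, S.card ≤ d ∧ ∀ e, See src tgt c e → e ∈ S)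
    (hA : 0 < Fintype.card A) :
    Fintype.card (RV A src tgt) ≤ Fintype.card (E ⊕ Q) * Fintype.card A ^ d := by
  classical
  let f : RV A src tgt ≃ Σ c : E ⊕ Q, GG (A := A) src tgt c :=
    ⟨fun x => ⟨x.1.1, ⟨x.1.2, x.2⟩⟩, fun y => ⟨(y.1, y.2.1), y.2.2⟩, fun _ => rfl, fun _ => rfl⟩
  rw [Fintype.card_congr f, Fintype.card_sigma]
  have h1 : ∀ c ∈ (univ : Finset (E ⊕ Q)), Fintype.card (GG (A := A) src tgt c) ≤
      Fintype.card A ^ d := by
    intro c _
    obtain ⟨S, hS1, hS2⟩ := hd c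
    rw [← Nat.card_eq_fintype_card]
    exact (card_GG src tgt c S hS2).trans (Nat.pow_le_pow_right hA hS1)
  refine (Finset.sum_le_card_nsmul _ _ _ h1).trans ?_
  rw [smul_eq_mul, Finset.card_univ]

theorem card_VV {ℓ : ℕ} [NeZero ℓ] (h : ℓ = 2 * Fintype.card (RV A src tgt) + 3)
    (hQ : 0 < Fintype.card (E ⊕ Q)) :
    Fintype.card (VV A src tgt ℓ) ≤ 6 * Fintype.card (E ⊕ Q) * Fintype.card (RV A src tgt) := by
  have h0 : 0 < Fintype.card (RV A src tgt) := by
    obtain ⟨c⟩ := Fintype.card_pos_iff.1 hQ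
    exact Fintype.card_pos_iff.2 ⟨⟨(c, 0), (GG src tgt c).zero_mem⟩⟩
  rw [Fintype.card_sum, Fintype.card_prod, ZMod.card]
  generalize Fintype.card (RV A src tgt) = r at h h0 ⊢
  generalize Fintype.card (E ⊕ Q) = c at hQ ⊢
  subst h
  nlinarith [Nat.mul_le_mul hQ h0, Nat.mul_le_mul_left c h0]

end

theorem card_Nd {D : ℕ} (hD : 2 ≤ D) : ∀ L : ℕ, Fintype.card (Nd D L) + 1 ≤ D ^ L
  | 0 => by
    have h1 : Fintype.card (Nd D 0) = 0 := by
      rw [Fintype.card_eq_zero_iff]
      exact ⟨fun t => nomatch t⟩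
    rw [h1]
    simp
  | L + 1 => by
    have h1 := card_Nd hD L
    rw [Fintype.card_congr (ndEquiv D L), Fintype.card_option, Fintype.card_prod, Fintype.card_fin,
      pow_succ]
    nlinarith

theorem see_le {D L R : ℕ} (hR : R ≤ D + 1) (c : Cl D L R) :
    ∃ S : Finset (Ed D L R), S.card ≤ D + 1 ∧ ∀ e, See src tgt c e → e ∈ S := by
  classical
  rcases c with e' | ⟨i, t⟩ | ⟨t, a⟩
  · refine ⟨{e'}, by rw [card_singleton]; omega, fun e he => ?_⟩
    have h1 : e = e' := he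
    rw [h1]
    exact mem_singleton_self _
  · by_cases h : ∃ e₀ : Ed D L R, tgt e₀ = .inl (i, t)
    · obtain ⟨e₀, h0⟩ := h
      refine ⟨insert e₀ (univ.image fun a => (i, t, a)), ?_, fun e he => ?_⟩
      · refine (card_insert_le _ _).trans ?_
        have := card_image_le (s := (univ : Finset (Fin D))) (f := fun a => (i, t, a))
        rw [card_univ, Fintype.card_fin] at this
        omega
      · rw [mem_insert]
        rcases he with h1 | h1
        · left
          rw [tgt_eq_inl] at h0 h1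
          obtain ⟨h2, h3⟩ := child_inj _ _ _ _ _ h1.2 h0.2
          exact Prod.ext (h1.1.trans h0.1.symm) (Prod.ext h2 h3)
        · right
          have h2 : e.1 = i ∧ e.2.1 = t := Prod.mk.inj (Sum.inl.inj h1)
          rw [mem_image]
          refine ⟨e.2.2, mem_univ _, ?_⟩
          rw [← h2.1, ← h2.2]
    · refine ⟨univ.image fun a => (i, t, a), ?_, fun e he => ?_⟩
      · have := card_image_le (s := (univ : Finset (Fin D))) (f := fun a => (i, t, a))
        rw [card_univ, Fintype.card_fin] at this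
        omega
      · rcases he with h1 | h1
        · exact absurd ⟨e, h1⟩ h
        · have h2 : e.1 = i ∧ e.2.1 = t := Prod.mk.inj (Sum.inl.inj h1)
          rw [mem_image]
          refine ⟨e.2.2, mem_univ _, ?_⟩
          rw [← h2.1, ← h2.2]
  · refine ⟨univ.image fun i => (i, t.1, a), ?_, fun e he => ?_⟩
    · have := card_image_le (s := (univ : Finset (Fin R))) (f := fun i => (i, t.1, a))
      rw [card_univ, Fintype.card_fin] at this
      omega
    · rcases he with h1 | h1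
      · rw [tgt_eq_inr] at h1
        rw [mem_image]
        refine ⟨e.1, mem_univ _, ?_⟩
        exact Prod.ext rfl (Prod.ext h1.1.symm h1.2.symm)
      · cases h1

theorem card_Cl {D L R : ℕ} (hR : R ≤ D) (hD : 2 ≤ D) :
    Fintype.card (Cl D L R) ≤ D ^ (L + 3) := by
  have h1 := card_Nd hD L
  have h2 : Fintype.card (Lf D L) ≤ Fintype.card (Nd D L) := Fintype.card_subtype_le _
  rw [Fintype.card_sum, Fintype.card_sum, Fintype.card_prod, Fintype.card_prod,
    Fintype.card_prod, Fintype.card_prod, Fintype.card_fin, Fintype.card_fin]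
  generalize Fintype.card (Nd D L) = n at h1 h2 ⊢
  generalize Fintype.card (Lf D L) = l at h2 ⊢
  have h3 : n ≤ D ^ L := by omega
  have h4 : l ≤ D ^ L := by omega
  have h5 : R * (n * D) ≤ D * (D ^ L * D) := Nat.mul_le_mul hR (Nat.mul_le_mul_right _ h3)
  have h6 : R * n ≤ D * D ^ L := Nat.mul_le_mul hR h3
  have h7 : l * D ≤ D ^ L * D := Nat.mul_le_mul_right _ h4
  have h8 : D ^ (L + 3) = D ^ L * D * D * D := by ring
  have h9 : 0 < D ^ L := Nat.pow_pos (by omega)
  rw [h8]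
  have h10 : D * (D ^ L * D) = D ^ L * D * D := by ring
  have h11 : D * D ^ L = D ^ L * D := by ring
  have h12 : D ^ L * D * 2 ≤ D ^ L * D * D := Nat.mul_le_mul_left _ hD
  have h13 : D ^ L * D * D * 2 ≤ D ^ L * D * D * D := Nat.mul_le_mul_left _ hD
  omega

/-- The arithmetic of the bound. -/
theorem bound (k K P : ℕ) (hk : 1 ≤ k) (hK : K = 4 * k + 2) (hP1 : K + 1 < P)
    (hP2 : P ≤ 3 * (K + 1)) (v c r q : ℕ) (hv : v ≤ 6 * c * r)
    (hc : c ≤ (P + (K + 1)) ^ (K + 1 + 3)) (hr : r ≤ c * q ^ (P + (K + 1) + 1))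
    (hq : q = P ^ (K + 1) * 3) : v ≤ (k + 1) ^ (1530 * k ^ 2) := by
  obtain ⟨D, hD⟩ : ∃ D, D = P + (K + 1) := ⟨_, rfl⟩
  rw [← hD] at hc hr
  have hD8 : 8 ≤ D := by omega
  have hDk : D ≤ 28 * k := by omega
  have hq2 : q ≤ D ^ (K + 2) := by
    rw [hq, pow_succ D (K + 1)]
    exact Nat.mul_le_mul (Nat.pow_le_pow_left (by omega) _) (by omega)
  have h1 : v ≤ D * D ^ (K + 1 + 3) * (D ^ (K + 1 + 3) * (D ^ (K + 2)) ^ (D + 1)) := by
    refine hv.trans ?_
    refine Nat.mul_le_mul (Nat.mul_le_mul (by omega) hc) (hr.trans ?_)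
    exact Nat.mul_le_mul hc (Nat.pow_le_pow_left hq2 _)
  have h2 : D * D ^ (K + 1 + 3) * (D ^ (K + 1 + 3) * (D ^ (K + 2)) ^ (D + 1)) =
      D ^ (1 + (K + 4) + (K + 4) + (K + 2) * (D + 1)) := by
    rw [← pow_mul, ← pow_succ', ← pow_add, ← pow_add]
    congr 1
    ring
  rw [h2] at h1
  have h3 : 1 + (K + 4) + (K + 4) + (K + 2) * (D + 1) ≤ 255 * k ^ 2 := by
    have h4 : (K + 2) * (D + 1) ≤ (8 * k) * (29 * k) := Nat.mul_le_mul (by omega) (by omega)
    have h5 : k ≤ k ^ 2 := Nat.le_self_pow (by norm_num) k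
    have h6 : (8 * k) * (29 * k) = 232 * k ^ 2 := by ring
    have h7 : 1 + (K + 4) + (K + 4) ≤ 23 * k := by omega
    omega
  have h4 : D ≤ (k + 1) ^ 6 := by
    have h5 : (k + 1) ^ 6 = (k + 1) ^ 5 * (k + 1) := by ring
    have h6 : 2 ^ 5 ≤ (k + 1) ^ 5 := Nat.pow_le_pow_left (by omega) 5
    have h7 : 2 ^ 5 * (k + 1) ≤ (k + 1) ^ 5 * (k + 1) := Nat.mul_le_mul_right _ h6
    rw [h5]
    omega
  calc v ≤ D ^ (1 + (K + 4) + (K + 4) + (K + 2) * (D + 1)) := h1
    _ ≤ D ^ (255 * k ^ 2) := Nat.pow_le_pow_right (by omega) h3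
    _ ≤ ((k + 1) ^ 6) ^ (255 * k ^ 2) := Nat.pow_le_pow_left h4 _
    _ = (k + 1) ^ (1530 * k ^ 2) := by
        rw [← pow_mul]
        congr 1
        ring

end Pool.Agent.K4H90.AllF
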